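import Pool.Agent.H910.Ff.Red

/-!
Counting the zeros of the reduction of a binary form.
-/

set_option autoImplicit false
set_option linter.unusedSectionVars false

open FF Polynomial Pool.Agent.W603.LV Pool.Agent.W603.PV Pool.Agent.W602.GT

namespace Pool.Agent.H910.Ff

open Pool.Agent.Y190.BV Pool.Agent.H910.Dsc Pool.Agent.Y216

variable {k L : Type} [Field k] [CharZero k] [IsAlgClosed k] [Field L] [Algebra k L] [IsFF k L]
  {n q : ℕ}

theorem cnt_pol (P : Place k L) {x : Fin (n + 1) → L} (hx : ∃ j, x j ≠ 0) :
    cnt P (pol x) = pord P x := by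
  apply cnt_unique
  · intro j
    by_cases hj : j < n + 1
    · rw [coeff_pol_lt _ hj]
      exact ge_pord P x _
    · rw [coeff_pol_ge _ (by omega)]
      exact Ge.zero
  · obtain ⟨j, hj, hjo⟩ := exists_pord P hx
    exact ⟨j, by rwa [coeff_pol], by rw [coeff_pol, hjo]⟩

section cnt

variable {x : Fin (n + 1) → L} {Pc : k[X]} {G : L[X]}

/-- the splitting of the constant roots -/
structure Fac (x : Fin (n + 1) → L) (Pc : k[X]) (G : L[X]) : Prop where
  sq : Squarefree (pol x)
  deg : n ≤ (pol x).natDegree + 1
  p0 : Pc ≠ 0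
  eq : pol x = Pc.map (algebraMap k L) * G
  ne : ∀ b : k, G.eval (algebraMap k L b) ≠ 0

theorem Fac.pmap (h : Fac x Pc G) : Pc.map (algebraMap k L) ≠ 0 :=
  (Polynomial.map_ne_zero_iff (algebraMap k L).injective).2 h.p0

theorem Fac.G0 (h : Fac x Pc G) : G ≠ 0 := by
  rintro rfl
  exact h.ne 0 eval_zero

theorem Fac.x0 (h : Fac x Pc G) : ∃ j, x j ≠ 0 := by
  by_contra hcon
  push Not at hcon
  apply h.sq.ne_zero
  unfold pol
  exact Finset.sum_eq_zero fun j _ => by rw [hcon j, C_0, zero_mul]

theorem Fac.natDegree (h : Fac x Pc G) : (pol x).natDegree = Pc.natDegree + G.natDegree := by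
  rw [h.eq, natDegree_mul h.pmap h.G0, natDegree_map]

theorem Fac.last (h : Fac x Pc G) : (x (Fin.last n) = 0 ↔ (pol x).natDegree + 1 = n) := by
  constructor
  · intro h1
    have := pol_last h1 h.sq.ne_zero
    have := h.deg
    omega
  · intro h1
    have h2 := coeff_pol x (Fin.last n)
    rw [Fin.val_last, coeff_eq_zero_of_natDegree_lt (by omega)] at h2
    exact h2.symm

open Classical in
theorem Fac.n_eq (h : Fac x Pc G) : n = Pc.natDegree + G.natDegree +
    if x (Fin.last n) = 0 then 1 else 0 := by
  rw [← h.natDegree]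
  have h1 := natDegree_pol_le x
  have h2 := h.deg
  split_ifs with h3
  · rw [h.last] at h3
    exact h3.symm
  · rw [h.last] at h3
    omega

theorem Fac.eval_iff (h : Fac x Pc G) (c : k) :
    (pol x).eval (algebraMap k L c) = 0 ↔ Pc.eval c = 0 := by
  rw [h.eq, eval_mul, mul_eq_zero, or_iff_left (h.ne c), eval_map_algebraMap,
    aeval_algebraMap_apply, map_eq_zero, coe_aeval_eq_eval]

theorem Fac.ct_eq (h : Fac x Pc G) (P : Place k L) {c : k} (hc : Pc.eval c ≠ 0) :
    ct P (pol x) c = ct P G c := by
  have h1 : (Pc.map (algebraMap k L)).eval (algebraMap k L c) = algebraMap k L (Pc.eval c) := by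
    rw [eval_map_algebraMap, aeval_algebraMap_apply, coe_aeval_eq_eval]
  have h2 : (Pc.map (algebraMap k L)).eval (algebraMap k L c) ≠ 0 := by
    rw [h1]
    exact (_root_.map_ne_zero _).2 hc
  have : Infinite k := inferInstance
  rw [h.eq, ct_mul P h2 (h.ne c)]
  unfold ct
  rw [h1, P.ord_const hc, cnt_const P h.p0]
  ring

theorem Fac.cnt_eq (h : Fac x Pc G) (P : Place k L) : cnt P G = pord P x := by
  have : Infinite k := inferInstance
  rw [← cnt_pol P h.x0, h.eq, cnt_mul P h.pmap h.G0, cnt_const P h.p0, zero_add]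

theorem Fac.lead_eq (h : Fac x Pc G) (P : Place k L) (hl : x (Fin.last n) ≠ 0) :
    P.ord G.leadingCoeff = P.ord (x (Fin.last n)) := by
  have h1 : (pol x).natDegree = n := by
    have := natDegree_pol_le x
    have := h.deg
    have := mt h.last.2 hl
    omega
  have h2 := coeff_pol x (Fin.last n)
  rw [Fin.val_last] at h2
  have h3 : (pol x).leadingCoeff = x (Fin.last n) := by
    rw [← h2]
    exact (congrArg (pol x).coeff h1).trans rfl
  rw [← h3, h.eq, leadingCoeff_mul, leadingCoeff_map, P.ord_mul
    ((_root_.map_ne_zero _).2 (leadingCoeff_ne_zero.2 h.p0)) (leadingCoeff_ne_zero.2 h.G0),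
    P.ord_const (leadingCoeff_ne_zero.2 h.p0), zero_add]

theorem Fac.roots_card (h : Fac x Pc G) [DecidableEq k] :
    Pc.roots.toFinset.card = Pc.natDegree := by
  have h1 : Squarefree (Pc.map (algebraMap k L)) := by
    have := h.sq
    rw [h.eq] at this
    exact this.of_mul_left
  have hchL : CharZero L := charZero_of_injective_algebraMap (algebraMap k L).injective
  have h2 : (Pc.map (algebraMap k L)).Separable := PerfectField.separable_iff_squarefree.2 h1
  rw [separable_map] at h2
  rw [Multiset.toFinset_card_of_nodup (nodup_roots h2),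
    ← (IsAlgClosed.splits Pc).natDegree_eq_card_roots]

variable {u v : Fin q → k}

open Classical in
/-- the finite points -/
noncomputable def fin (u v : Fin q → k) : Finset k :=
  (Finset.univ.filter fun i => u i ≠ 0).image fun i => v i / u i

open Classical in
theorem card_fin (huv : ∀ i j, i ≠ j → u i * v j ≠ u j * v i) :
    q = (fin u v).card + if ∃ i, u i = 0 then 1 else 0 := by
  have h1 : (fin u v).card = (Finset.univ.filter fun i => u i ≠ 0).card := by
    unfold fin
    refine Finset.card_image_of_injOn fun i hi j hj hij => ?_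
    rw [Finset.mem_coe, Finset.mem_filter] at hi hj
    by_contra hne
    apply huv i j hne
    have := hi.2
    have := hj.2
    field_simp at hij
    linear_combination -hij
  have h2 : (Finset.univ.filter fun i => ¬ u i ≠ 0).card = if ∃ i, u i = 0 then 1 else 0 := by
    split_ifs with h
    · obtain ⟨i, hi⟩ := h
      rw [Finset.card_eq_one]
      refine ⟨i, ?_⟩
      ext j
      rw [Finset.mem_filter, Finset.mem_singleton]
      constructor
      · rintro ⟨-, hj⟩
        rw [not_not] at hj
        by_contra hne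
        apply huv j i hne
        rw [hj, hi]
        ring
      · rintro rfl
        exact ⟨Finset.mem_univ _, not_not.2 hi⟩
    · rw [Finset.card_eq_zero, Finset.filter_eq_empty_iff]
      intro i _ hi
      exact h ⟨i, not_not.1 hi⟩
  rw [h1, ← h2, Finset.card_filter_add_card_filter_not, Finset.card_univ, Fintype.card_fin]

open Classical in
/-- the hyperplanes met at a place -/
noncomputable def mt (u v : Fin q → k) (P : Place k L) (x : Fin (n + 1) → L) : Finset (Fin q) :=
  Finset.univ.filter fun i => vl (u i) (v i) x ≠ 0 ∧ pord P x < P.ord (vl (u i) (v i) x)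

open Classical in
theorem mt_card (h : Fac x Pc G) (h0 : ∀ i, u i ≠ 0 ∨ v i ≠ 0)
    (huv : ∀ i j, i ≠ j → u i * v j ≠ u j * v i) {P : Place k L} {g : L} {y : Fin (n + 1) → k}
    (hr : IsRed P x g y) :
    (mt u v P x).card = (((pol y).roots.toFinset \ Pc.roots.toFinset) ∩ fin u v).card +
      (if ∃ i, u i = 0 then 1 else 0) *
        if y (Fin.last n) = 0 ∧ x (Fin.last n) ≠ 0 then 1 else 0 := by
  unfold mt
  rw [← Finset.card_filter_add_card_filter_not (s := Finset.univ.filter fun i =>
    vl (u i) (v i) x ≠ 0 ∧ pord P x < P.ord (vl (u i) (v i) x)) (fun i => u i ≠ 0)]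
  congr 1
  · refine Finset.card_bij (fun i _ => v i / u i) (fun i hi => ?_) (fun i hi j hj hij => ?_)
      (fun c hc => ?_)
    · rw [Finset.mem_filter, Finset.mem_filter] at hi
      obtain ⟨⟨-, h1, h2⟩, h3⟩ := hi
      rw [vl_fin h3] at h1 h2
      have h4 := (_root_.map_ne_zero (algebraMap k L)).2 h3
      have h5 := (mul_ne_zero_iff.1 h1).2
      rw [P.ord_mul (pow_ne_zero _ h4) h5, P.ord_pow, P.ord_const h3, mul_zero, zero_add] at h2
      rw [Finset.mem_inter, Finset.mem_sdiff, Multiset.mem_toFinset, Multiset.mem_toFinset,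
        mem_roots hr.pol_ne, mem_roots h.p0]
      refine ⟨⟨?_, ?_⟩, ?_⟩
      · rw [IsRoot, ← hr.some_iff]
        right
        rwa [vl_some]
      · rw [IsRoot, ← h.eval_iff]
        exact h5
      · exact Finset.mem_image.2 ⟨i, Finset.mem_filter.2 ⟨Finset.mem_univ _, h3⟩, rfl⟩
    · rw [Finset.mem_filter] at hi hj
      by_contra hne
      apply huv i j hne
      have := hi.2
      have := hj.2
      field_simp at hij
      linear_combination -hij
    · rw [Finset.mem_inter, Finset.mem_sdiff, Multiset.mem_toFinset, Multiset.mem_toFinset,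
        mem_roots hr.pol_ne, mem_roots h.p0, IsRoot, IsRoot, ← hr.some_iff, ← h.eval_iff] at hc
      obtain ⟨⟨h1, h2⟩, h3⟩ := hc
      unfold fin at h3
      rw [Finset.mem_image] at h3
      obtain ⟨i, hi, rfl⟩ := h3
      have h3 := (Finset.mem_filter.1 hi).2
      refine ⟨i, ?_, rfl⟩
      have h4 := (_root_.map_ne_zero (algebraMap k L)).2 h3
      rw [Finset.mem_filter, Finset.mem_filter, vl_fin h3, P.ord_mul (pow_ne_zero _ h4) h2,
        P.ord_pow, P.ord_const h3, mul_zero, zero_add]
      refine ⟨⟨Finset.mem_univ _, mul_ne_zero (pow_ne_zero _ h4) h2, ?_⟩, h3⟩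
      rcases h1 with h1 | h1
      · rw [vl_some] at h1
        exact absurd h1 h2
      · rwa [vl_some] at h1
  · by_cases hinf : ∃ i, u i = 0
    · rw [if_pos hinf, one_mul]
      obtain ⟨i, hi⟩ := hinf
      have hvi : v i ≠ 0 := (h0 i).resolve_left fun h => h hi
      have hu : ∀ j, u j = 0 → j = i := by
        intro j hj
        by_contra hne
        apply huv j i hne
        rw [hj, hi]
        ring
      have hvl := vl_inf (v := v i) hi x
      have hv' := (_root_.map_ne_zero (algebraMap k L)).2 hvi
      by_cases hy : y (Fin.last n) = 0 ∧ x (Fin.last n) ≠ 0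
      · rw [if_pos hy, Finset.card_eq_one]
        refine ⟨i, ?_⟩
        ext j
        rw [Finset.mem_filter, Finset.mem_filter, Finset.mem_singleton, not_not]
        constructor
        · rintro ⟨-, hj⟩
          exact hu j hj
        · rintro rfl
          refine ⟨⟨Finset.mem_univ _, ?_, ?_⟩, hi⟩
          · rw [hvl]
            exact mul_ne_zero (pow_ne_zero _ hv') hy.2
          · rw [hvl, P.ord_mul (pow_ne_zero _ hv') hy.2, P.ord_pow, P.ord_const hvi, mul_zero,
              zero_add]
            have h1 := hr.none_iff.2 hy.1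
            rcases h1 with h1 | h1
            · rw [vl_none] at h1
              exact absurd h1 hy.2
            · rwa [vl_none] at h1
      · rw [if_neg hy, Finset.card_eq_zero, Finset.filter_eq_empty_iff]
        intro j hj hj2
        rw [not_not] at hj2
        have := hu j hj2
        subst this
        rw [Finset.mem_filter] at hj
        obtain ⟨-, h1, h2⟩ := hj
        rw [hvl] at h1 h2
        have h3 := (mul_ne_zero_iff.1 h1).2
        rw [P.ord_mul (pow_ne_zero _ hv') h3, P.ord_pow, P.ord_const hvi, mul_zero,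
              zero_add] at h2
        apply hy
        refine ⟨hr.none_iff.1 (Or.inr ?_), h3⟩
        rwa [vl_none]
    · rw [if_neg hinf, zero_mul, Finset.card_eq_zero, Finset.filter_eq_empty_iff]
      intro j _ hj
      exact hinf ⟨j, not_not.1 hj⟩

open Classical in
/-- the count of the zeros of the reduction -/
theorem zeros_eq (h : Fac x Pc G) (h0 : ∀ i, u i ≠ 0 ∨ v i ≠ 0)
    (huv : ∀ i j, i ≠ j → u i * v j ≠ u j * v i) {P : Place k L} {g : L} {y : Fin (n + 1) → k}
    (hr : IsRed P x g y) :
    (n : ℤ) - (zst P x).ncard + (mt u v P x).card +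
      (1 - (if ∃ i, u i = 0 then 1 else 0)) *
        (if y (Fin.last n) = 0 ∧ x (Fin.last n) ≠ 0 then 1 else 0) =
    G.natDegree - (((pol y).roots.toFinset \ Pc.roots.toFinset) \ fin u v).card := by
  have h1 := hr.ncard
  have h2 := mt_card h h0 huv hr
  have h3 := h.n_eq
  have h4 := h.roots_card
  have h5 : Pc.roots.toFinset ⊆ (pol y).roots.toFinset := by
    intro c hc
    rw [Multiset.mem_toFinset, mem_roots h.p0, IsRoot, ← h.eval_iff] at hc
    rw [Multiset.mem_toFinset, mem_roots hr.pol_ne, IsRoot, ← hr.some_iff]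
    left
    rwa [vl_some]
  have h6 := Finset.card_sdiff_add_card_eq_card h5
  have h7 := Finset.card_sdiff_add_card_inter
    ((pol y).roots.toFinset \ Pc.roots.toFinset) (fin u v)
  have h8 : (if y (Fin.last n) = 0 then 1 else 0 : ℕ) =
      (if y (Fin.last n) = 0 ∧ x (Fin.last n) ≠ 0 then 1 else 0) +
        if x (Fin.last n) = 0 then 1 else 0 := by
    by_cases hx : x (Fin.last n) = 0
    · have hy : y (Fin.last n) = 0 := by
        rw [← hr.none_iff]
        left
        rwa [vl_none]
      simp [hx, hy]
    · simp [hx]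
  rw [h1, h2]
  rw [h8]
  zify at h3 h4 h6 h7
  push_cast at h3 ⊢
  linear_combination h3 - h4 + h6 + h7

end cnt

end Pool.Agent.H910.Ff
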