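import Pool.Agent.H910.Ff.Cnt

/-!
The order of the discriminant of a binary form at a place and the number of the zeros of its
reduction.
-/

set_option autoImplicit false
set_option linter.unusedSectionVars false

open FF Polynomial Pool.Agent.W603.LV Pool.Agent.W603.PV Pool.Agent.W602.GT

namespace Pool.Agent.H910.Ff

open Pool.Agent.Y190.BV Pool.Agent.H910.Dsc Pool.Agent.Y216

section det

variable {k L : Type} [Field k] [Field L] [Algebra k L]

theorem ge_mul_const {N : ℕ} {P : Place k L} {A : Matrix (Fin N) (Fin N) L}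
    (hA : ∀ i j, Ge P 1 (A i j)) (U V : Matrix (Fin N) (Fin N) k) (i j : Fin N) :
    Ge P 1 ((V.map (algebraMap k L) * A * U.map (algebraMap k L)) i j) := by
  rw [Matrix.mul_apply]
  refine Ge.sum _ _ fun l _ => ?_
  rw [Matrix.mul_apply]
  have h1 : Ge P 1 (∑ m, V.map (algebraMap k L) i m * A m l) := by
    refine Ge.sum _ _ fun m _ => ?_
    have h := (Ge.const (P := P) (V i m)).mul (hA m l)
    rwa [zero_add] at h
  have h := h1.mul (Ge.const (P := P) (U l j))
  rwa [add_zero] at h

/-- The order of a determinant is at least the corank of the reduction. -/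
theorem ge_corank {N : ℕ} (P : Place k L) (A : Matrix (Fin N) (Fin N) L)
    (B : Matrix (Fin N) (Fin N) k) (h : ∀ i j, Ge P 1 (A i j - algebraMap k L (B i j))) :
    Ge P ((N : ℤ) - B.rank) A.det := by
  classical
  obtain ⟨V, U, e, hV, hU, hVU⟩ := Matrix.exists_rank_normal_form B
  have hr : B.rank ≤ N := by
    have := B.rank_le_width
    exact this
  set M : Matrix (Fin N) (Fin N) L := V.map (algebraMap k L) * A * U.map (algebraMap k L) with hM
  have h1 : ∀ i j, Ge P 1 (M i j - algebraMap k L ((V * B * U) i j)) := by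
    intro i j
    have h2 : M i j - algebraMap k L ((V * B * U) i j) =
        (V.map (algebraMap k L) * (A - B.map (algebraMap k L)) * U.map (algebraMap k L)) i j := by
      rw [mul_sub, sub_mul, Matrix.sub_apply]
      congr 1
      have h3 : (V * B * U).map (algebraMap k L) =
          V.map (algebraMap k L) * B.map (algebraMap k L) * U.map (algebraMap k L) := by
        rw [Matrix.map_mul, Matrix.map_mul]
      rw [← h3]
      rfl
    rw [h2]
    exact ge_mul_const (fun i j => h i j) U V i j
  have h2 : ∀ i j, Ge P (if (e j).isRight then 1 else 0) (M i j) := by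
    intro i j
    have h3 := h1 i j
    rw [hVU] at h3
    have h4 : M i j = (M i j - algebraMap k L ((Matrix.fromBlocks 1 0 0 0).submatrix e e i j)) +
        algebraMap k L ((Matrix.fromBlocks 1 0 0 0).submatrix e e i j) := by ring
    rw [h4]
    cases hj : e j with
    | inl a =>
      simp only [Sum.isRight_inl, Bool.false_eq_true, if_false]
      exact (h3.mono (by norm_num)).add (Ge.const _)
    | inr a =>
      simp only [Sum.isRight_inr, if_true]
      refine h3.add ?_
      have h5 : (Matrix.fromBlocks (1 : Matrix (Fin B.rank) (Fin B.rank) k) 0 0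
          (0 : Matrix (Fin (Fintype.card (Fin N) - B.rank)) (Fin (Fintype.card (Fin N) - B.rank)) k)
          ).submatrix e e i j = 0 := by
        rw [Matrix.submatrix_apply, hj]
        cases e i <;> rfl
      rw [h5, map_zero]
      exact Ge.zero
  have h3 : Ge P ((N : ℤ) - B.rank) M.det := by
    refine ge_det P M _ (fun _ j => if (e j).isRight then 1 else 0) h2 fun σ => ?_
    have h4 : ∑ j, (if (e j).isRight then (1 : ℤ) else 0) = (N : ℤ) - B.rank := by
      rw [Equiv.sum_comp e (fun s => if s.isRight then (1 : ℤ) else 0), Fintype.sum_sum_type]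
      simp only [Sum.isRight_inl, Sum.isRight_inr, Bool.false_eq_true, if_false, if_true,
        Finset.sum_const_zero, Finset.sum_const, Finset.card_univ, Fintype.card_fin, zero_add,
        nsmul_eq_mul, mul_one]
      rw [Nat.cast_sub hr]
    rw [h4]
  have h4 : ∀ W : Matrix (Fin N) (Fin N) k, IsUnit W →
      (W.map (algebraMap k L)).det ≠ 0 ∧ P.ord (W.map (algebraMap k L)).det = 0 := by
    intro W hW
    have h5 : (W.map (algebraMap k L)).det = algebraMap k L W.det :=
      ((algebraMap k L).map_det W).symm
    have h6 : W.det ≠ 0 := ((Matrix.isUnit_iff_isUnit_det W).1 hW).ne_zero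
    rw [h5]
    exact ⟨(_root_.map_ne_zero _).2 h6, P.ord_const h6⟩
  obtain ⟨hv1, hv2⟩ := h4 V hV
  obtain ⟨hu1, hu2⟩ := h4 U hU
  by_cases hA : A.det = 0
  · exact Or.inl hA
  · right
    have h5 : M.det = (V.map (algebraMap k L)).det * A.det * (U.map (algebraMap k L)).det := by
      rw [hM, Matrix.det_mul, Matrix.det_mul]
    have h6 := h3.resolve_left (by rw [h5]; exact mul_ne_zero (mul_ne_zero hv1 hA) hu1)
    rw [h5, P.ord_mul (mul_ne_zero hv1 hA) hu1, P.ord_mul hv1 hA, hv2, hu2] at h6
    linarith

end det

section rank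

variable {k : Type} [Field k] [CharZero k] [IsAlgClosed k]

/-- The rank of the Sylvester matrix of two polynomials with a common divisor. -/
theorem rank_syl {m μ : ℕ} {A B g : k[X]} (hA : A.natDegree ≤ μ) (hB : B.natDegree ≤ μ)
    (hμ : μ ≤ m) (hg : g ≠ 0) (hgA : g ∣ A) (hgB : g ∣ B) :
    (sylvester A B m m).rank ≤ m + μ - g.natDegree := by
  classical
  have h1 : (sylvester A B m m).rank = Module.finrank k
      (LinearMap.range (sylvesterMap A B (hA.trans hμ) (hB.trans hμ))) := by
    rw [← toMatrix_sylvesterMap' A B (hA.trans hμ) (hB.trans hμ),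
      Matrix.rank_eq_finrank_range_toLin _ (degreeLT.basis k (m + m))
        (((degreeLT.basis k m).prod (degreeLT.basis k m)).reindex finSumFinEquiv),
      Matrix.toLin_toMatrix]
  rw [h1]
  -- the range is contained in the multiples of `g`
  let φ : degreeLT k (m + μ - g.natDegree) →ₗ[k] k[X] :=
    (LinearMap.mulLeft k g).comp (degreeLT k (m + μ - g.natDegree)).subtype
  have h2 : (LinearMap.range (sylvesterMap A B (hA.trans hμ) (hB.trans hμ))).map
      (degreeLT k (m + m)).subtype ≤ LinearMap.range φ := by
    rintro _ ⟨_, ⟨⟨⟨p, hp⟩, ⟨r, hr⟩⟩, rfl⟩, rfl⟩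
    change A * r + B * p ∈ _
    rw [mem_degreeLT] at hp hr
    obtain ⟨A', rfl⟩ := hgA
    obtain ⟨B', rfl⟩ := hgB
    have h3 : g * A' * r + g * B' * p = g * (A' * r + B' * p) := by ring
    rw [h3]
    by_cases h0 : A' * r + B' * p = 0
    · rw [h0, mul_zero]
      exact Submodule.zero_mem _
    refine ⟨⟨A' * r + B' * p, ?_⟩, rfl⟩
    rw [mem_degreeLT, degree_eq_natDegree h0, Nat.cast_lt]
    have h4 : (g * (A' * r + B' * p)).natDegree < m + μ := by
      rw [← h3, ← Nat.cast_lt (α := WithBot ℕ), ← degree_eq_natDegree (by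
        rw [h3]; exact mul_ne_zero hg h0)]
      have h6 : ∀ F s : k[X], F.natDegree ≤ μ → s.degree < (m : WithBot ℕ) →
          (F * s).degree < ((m + μ : ℕ) : WithBot ℕ) := by
        intro F s hF hs
        by_cases hF0 : F = 0
        · rw [hF0, zero_mul, degree_zero]
          exact WithBot.bot_lt_coe _
        rw [degree_mul, add_comm m μ, Nat.cast_add]
        exact WithBot.add_lt_add_of_le_of_lt (by simpa using hF0)
          (degree_le_of_natDegree_le hF) hs
      exact (degree_add_le _ _).trans_lt (max_lt (h6 _ _ hA hr) (h6 _ _ hB hp))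
    rw [natDegree_mul hg h0] at h4
    omega
  have h3 := Submodule.finrank_mono h2
  rw [← (Submodule.equivMapOfInjective _ (Submodule.injective_subtype (degreeLT k (m + m)))
    (LinearMap.range (sylvesterMap A B (hA.trans hμ) (hB.trans hμ)))).finrank_eq] at h3
  have h4 : Module.finrank k (LinearMap.range φ) ≤ m + μ - g.natDegree := by
    refine (LinearMap.finrank_range_le φ).trans ?_
    rw [Module.finrank_eq_card_basis (degreeLT.basis k (m + μ - g.natDegree)), Fintype.card_fin]
  exact h3.trans h4

end rank

section contact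

variable {k L : Type} [Field k] [CharZero k] [IsAlgClosed k] [Field L] [Algebra k L] [IsFF k L]
  {m : ℕ}

theorem syl_ge {P : Place k L} {A B : L[X]} {A' B' : k[X]}
    (hA : ∀ i, Ge P 1 (A.coeff i - algebraMap k L (A'.coeff i)))
    (hB : ∀ i, Ge P 1 (B.coeff i - algebraMap k L (B'.coeff i))) (i j : Fin (m + m)) :
    Ge P 1 (sylvester A B m m i j - algebraMap k L (sylvester A' B' m m i j)) := by
  unfold sylvester
  rw [Matrix.of_apply, Matrix.of_apply]
  induction j using Fin.addCases with
  | left j =>
    rw [Fin.addCases_left, Fin.addCases_left]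
    split_ifs
    · exact hB _
    · rw [map_zero, sub_zero]
      exact Ge.zero
  | right j =>
    rw [Fin.addCases_right, Fin.addCases_right]
    split_ifs
    · exact hA _
    · rw [map_zero, sub_zero]
      exact Ge.zero

/-- the repeated part of a polynomial -/
theorem rep (f : k[X]) [DecidableEq k] : ∃ g : k[X], g ≠ 0 ∧ g ∣ f ∧ g ∣ derivative f ∧
    g.natDegree + f.roots.toFinset.card = f.natDegree := by
  refine ⟨∏ c ∈ f.roots.toFinset, (X - C c) ^ (f.rootMultiplicity c - 1), ?_, ?_, ?_, ?_⟩
  · exact Finset.prod_ne_zero_iff.2 fun c _ => pow_ne_zero _ (X_sub_C_ne_zero c)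
  · refine Finset.prod_dvd_of_coprime (fun c _ c' _ hcc => ?_) fun c _ => ?_
    · exact (isCoprime_X_sub_C_of_isUnit_sub (sub_ne_zero.2 hcc).isUnit).pow
    · exact (pow_dvd_pow _ (Nat.sub_le _ _)).trans (pow_rootMultiplicity_dvd f c)
  · refine Finset.prod_dvd_of_coprime (fun c _ c' _ hcc => ?_) fun c _ => ?_
    · exact (isCoprime_X_sub_C_of_isUnit_sub (sub_ne_zero.2 hcc).isUnit).pow
    · exact pow_sub_one_dvd_derivative_of_pow_dvd (pow_rootMultiplicity_dvd f c)
  · rw [natDegree_prod _ _ fun c _ => pow_ne_zero _ (X_sub_C_ne_zero c)]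
    simp only [natDegree_pow, natDegree_X_sub_C, mul_one]
    rw [Finset.card_eq_sum_ones, ← Finset.sum_add_distrib,
      (IsAlgClosed.splits f).natDegree_eq_card_roots, ← Multiset.toFinset_sum_count_eq]
    refine Finset.sum_congr rfl fun c hc => ?_
    rw [count_roots]
    have h1 : 0 < f.rootMultiplicity c := by
      rw [Multiset.mem_toFinset] at hc
      rw [← count_roots]
      exact Multiset.count_pos.2 hc
    omega

theorem IsRed.coeff {n : ℕ} {P : Place k L} {x : Fin (n + 1) → L} {g : L} {y : Fin (n + 1) → k}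
    (h : IsRed P x g y) (i : ℕ) :
    Ge P 1 ((C g⁻¹ * pol x).coeff i - algebraMap k L ((pol y).coeff i)) := by
  rw [coeff_C_mul]
  by_cases hi : i < n + 1
  · rw [coeff_pol_lt _ hi, coeff_pol_lt _ hi, mul_comm, ← div_eq_mul_inv]
    exact h.eq _
  · rw [coeff_pol_ge _ (by omega), coeff_pol_ge _ (by omega), mul_zero, map_zero, sub_zero]
    exact Ge.zero

/-- **The number of the zeros of the reduction and the contact with the discriminant.** -/
theorem zst_ge (P : Place k L) {x : Fin (m + 2) → L} (hx : ∃ j, x j ≠ 0)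
    (hd : dsf m (pol x) ≠ 0) :
    ((m + 1 : ℕ) : ℤ) - (zst P x).ncard ≤ P.ord (dsf m (pol x)) - 2 * m * pord P x := by
  classical
  obtain ⟨g, y, h⟩ := exists_red P hx
  obtain ⟨r, hr0, hr1, hr2, hr3⟩ := rep (pol y)
  have hYY : pol (parY y) = C ((m + 1 : ℕ) : k) * pol y - X * derivative (pol y) := pol_parY y
  have hXX : pol (parX y) = derivative (pol y) := pol_parX y
  have hN1 : (pol y).natDegree ≤ m + 1 := natDegree_pol_le y
  have hA : (derivative (pol y)).natDegree ≤ min m (pol y).natDegree := by
    rw [le_min_iff]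
    refine ⟨?_, ?_⟩
    · rw [← hXX]
      exact natDegree_pol_le _
    · exact (natDegree_derivative_le _).trans (Nat.sub_le _ _)
  have hB : (C ((m + 1 : ℕ) : k) * pol y - X * derivative (pol y)).natDegree ≤
      min m (pol y).natDegree := by
    rw [le_min_iff]
    refine ⟨?_, ?_⟩
    · rw [← hYY]
      exact natDegree_pol_le _
    · refine (natDegree_sub_le _ _).trans (max_le (natDegree_C_mul_le _ _) ?_)
      by_cases h0 : derivative (pol y) = 0
      · rw [h0, mul_zero, natDegree_zero]
        exact Nat.zero_le _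
      · rw [natDegree_X_mul h0]
        have h1 := natDegree_derivative_le (pol y)
        have h2 : (pol y).natDegree ≠ 0 := by
          intro h3
          rw [natDegree_eq_zero] at h3
          obtain ⟨c, hc⟩ := h3
          rw [← hc, derivative_C] at h0
          exact h0 rfl
        omega
  have hrk := rank_syl hA hB (min_le_left _ _) hr0 hr2
    (dvd_sub (dvd_mul_of_dvd_right hr1 _) (dvd_mul_of_dvd_right hr2 _))
  have hc := h.coeff
  have hge := ge_corank P
    (sylvester (derivative (C g⁻¹ * pol x))
      (C ((m + 1 : ℕ) : L) * (C g⁻¹ * pol x) - X * derivative (C g⁻¹ * pol x)) m m)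
    (sylvester (derivative (pol y)) (C ((m + 1 : ℕ) : k) * pol y - X * derivative (pol y)) m m)
    (syl_ge (fun i => by
      rw [coeff_derivative, coeff_derivative, map_mul, map_add, map_natCast, map_one, ← sub_mul]
      have h1 := (hc (i + 1)).mul (Ge.natCast (P := P) (i + 1))
      rw [add_zero] at h1
      push_cast at h1
      exact h1) fun i => by
      have e1 : ∀ (R : Type) [CommRing R] (f : R[X]),
          (C ((m + 1 : ℕ) : R) * f - X * derivative f).coeff i =
          ((m + 1 : ℕ) : R) * f.coeff i - (i : R) * f.coeff i := by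
        intro R _ f
        rw [coeff_sub, coeff_C_mul]
        congr 1
        cases i with
        | zero => simp
        | succ i =>
          rw [coeff_X_mul, coeff_derivative]
          push_cast
          ring
      rw [e1, e1]
      have h1 := (Ge.natCast (P := P) (m + 1)).mul (hc i)
      have h2 := (Ge.natCast (P := P) i).mul (hc i)
      rw [zero_add] at h1 h2
      have h3 := h1.sub h2
      rw [map_sub, map_mul, map_mul, map_natCast, map_natCast]
      have e2 : ((m + 1 : ℕ) : L) * (C g⁻¹ * pol x).coeff i - (i : L) * (C g⁻¹ * pol x).coeff i -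
          (((m + 1 : ℕ) : L) * algebraMap k L ((pol y).coeff i) -
            (i : L) * algebraMap k L ((pol y).coeff i)) =
          ((m + 1 : ℕ) : L) * ((C g⁻¹ * pol x).coeff i - algebraMap k L ((pol y).coeff i)) -
          (i : L) * ((C g⁻¹ * pol x).coeff i - algebraMap k L ((pol y).coeff i)) := by ring
      rw [e2]
      exact h3)
  have hdet : (sylvester (derivative (C g⁻¹ * pol x))
      (C ((m + 1 : ℕ) : L) * (C g⁻¹ * pol x) - X * derivative (C g⁻¹ * pol x)) m m).det =
      g⁻¹ ^ (2 * m) * dsf m (pol x) := by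
    rw [← dsf_C_mul]
    rfl
  have hgi : g⁻¹ ≠ 0 := inv_ne_zero h.g0
  rw [hdet] at hge
  have h1 := hge.resolve_left (mul_ne_zero (pow_ne_zero _ hgi) hd)
  rw [P.ord_mul (pow_ne_zero _ hgi) hd, P.ord_pow, P.ord_inv, h.go] at h1
  rw [h.ncard]
  have h2 : 1 ≤ (pol y).natDegree → 1 ≤ (pol y).roots.toFinset.card := by
    intro h3
    rw [Nat.one_le_iff_ne_zero, Ne, Finset.card_eq_zero, ← Ne, ← Finset.nonempty_iff_ne_empty]
    obtain ⟨c, hc⟩ := IsAlgClosed.exists_root (pol y) (by
      rw [degree_eq_natDegree h.pol_ne]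
      have h4 : (pol y).natDegree ≠ 0 := by omega
      exact_mod_cast h4)
    exact ⟨c, by rw [Multiset.mem_toFinset, mem_roots h.pol_ne]; exact hc⟩
  have h3 : y (Fin.last (m + 1)) = 0 ↔ (pol y).natDegree ≤ m := by
    constructor
    · intro h4
      have := pol_last h4 h.pol_ne
      omega
    · intro h4
      have h5 := coeff_pol y (Fin.last (m + 1))
      rw [Fin.val_last, coeff_eq_zero_of_natDegree_lt (by omega)] at h5
      exact h5.symm
  push_cast at h1
  have h4 : ((m : ℤ) + m - (sylvester (derivative (pol y))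
      (C ((m + 1 : ℕ) : k) * pol y - X * derivative (pol y)) m m).rank) ≤
      P.ord (dsf m (pol x)) - 2 * m * pord P x := by
    push_cast
    linarith
  refine le_trans ?_ h4
  have h5 := hr3
  split_ifs with h6
  · rw [h3] at h6
    rw [min_eq_right h6] at hrk
    omega
  · rw [h3] at h6
    rw [min_eq_left (by omega)] at hrk
    omega

/-- the shape of the two matrices -/
theorem IsRed.mat {P : Place k L} {x : Fin (m + 2) → L} {g : L} {y : Fin (m + 2) → k}
    (h : IsRed P x g y) (i j : Fin (m + m)) : Ge P 1
    (sylvester (derivative (C g⁻¹ * pol x))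
      (C ((m + 1 : ℕ) : L) * (C g⁻¹ * pol x) - X * derivative (C g⁻¹ * pol x)) m m i j -
      algebraMap k L (sylvester (derivative (pol y))
        (C ((m + 1 : ℕ) : k) * pol y - X * derivative (pol y)) m m i j)) := by
  have hc := h.coeff
  refine syl_ge (fun i => by
      rw [coeff_derivative, coeff_derivative, map_mul, map_add, map_natCast, map_one, ← sub_mul]
      have h1 := (hc (i + 1)).mul (Ge.natCast (P := P) (i + 1))
      rw [add_zero] at h1
      push_cast at h1
      exact h1) (fun i => by
      have e1 : ∀ (R : Type) [CommRing R] (f : R[X]),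
          (C ((m + 1 : ℕ) : R) * f - X * derivative f).coeff i =
          ((m + 1 : ℕ) : R) * f.coeff i - (i : R) * f.coeff i := by
        intro R _ f
        rw [coeff_sub, coeff_C_mul]
        congr 1
        cases i with
        | zero => simp
        | succ i =>
          rw [coeff_X_mul, coeff_derivative]
          push_cast
          ring
      rw [e1, e1]
      have h1 := (Ge.natCast (P := P) (m + 1)).mul (hc i)
      have h2 := (Ge.natCast (P := P) i).mul (hc i)
      rw [zero_add] at h1 h2
      have h3 := h1.sub h2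
      rw [map_sub, map_mul, map_mul, map_natCast, map_natCast]
      have e2 : ((m + 1 : ℕ) : L) * (C g⁻¹ * pol x).coeff i - (i : L) * (C g⁻¹ * pol x).coeff i -
          (((m + 1 : ℕ) : L) * algebraMap k L ((pol y).coeff i) -
            (i : L) * algebraMap k L ((pol y).coeff i)) =
          ((m + 1 : ℕ) : L) * ((C g⁻¹ * pol x).coeff i - algebraMap k L ((pol y).coeff i)) -
          (i : L) * ((C g⁻¹ * pol x).coeff i - algebraMap k L ((pol y).coeff i)) := by ring
      rw [e2]
      exact h3) i j

theorem prod_close {ι : Type} {P : Place k L} (s : Finset ι) (a : ι → L) (b : ι → k)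
    (h : ∀ i, Ge P 1 (a i - algebraMap k L (b i))) :
    Ge P 1 (∏ i ∈ s, a i - algebraMap k L (∏ i ∈ s, b i)) := by
  classical
  have ha : ∀ i, Ge P 0 (a i) := fun i => by
    have h1 := ((h i).mono (by norm_num : (0 : ℤ) ≤ 1)).add (Ge.const (P := P) (b i))
    rwa [sub_add_cancel] at h1
  induction s using Finset.induction_on with
  | empty => rw [Finset.prod_empty, Finset.prod_empty, map_one, sub_self]; exact Ge.zero
  | insert i s hi ih =>
    rw [Finset.prod_insert hi, Finset.prod_insert hi, map_mul]
    have h1 := (ha i).mul ih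
    have h2 := (h i).mul (Ge.const (P := P) (∏ i ∈ s, b i))
    rw [zero_add] at h1
    rw [add_zero] at h2
    have h3 := h1.add h2
    have e : a i * (∏ i ∈ s, a i - algebraMap k L (∏ i ∈ s, b i)) +
        (a i - algebraMap k L (b i)) * algebraMap k L (∏ i ∈ s, b i) =
        a i * ∏ i ∈ s, a i - algebraMap k L (b i) * algebraMap k L (∏ i ∈ s, b i) := by ring
    rwa [e] at h3

theorem det_close {N : ℕ} {P : Place k L} (A : Matrix (Fin N) (Fin N) L)
    (B : Matrix (Fin N) (Fin N) k) (h : ∀ i j, Ge P 1 (A i j - algebraMap k L (B i j))) :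
    Ge P 1 (A.det - algebraMap k L B.det) := by
  rw [Matrix.det_apply', Matrix.det_apply', map_sum, ← Finset.sum_sub_distrib]
  refine Ge.sum _ _ fun σ _ => ?_
  have h1 := (Ge.intCast (P := P) (Equiv.Perm.sign σ : ℤ)).mul
    (prod_close Finset.univ (fun i => A (σ i) i) (fun i => B (σ i) i) fun i => h _ _)
  rw [zero_add] at h1
  rw [map_mul, map_intCast, ← mul_sub]
  exact h1

/-- If the reduction has distinct zeros, the contact with the discriminant vanishes. -/
theorem contact_zero (P : Place k L) {x : Fin (m + 2) → L} (hx : ∃ j, x j ≠ 0)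
    (hd : dsf m (pol x) ≠ 0) (hz : (zst P x).ncard = m + 1) :
    P.ord (dsf m (pol x)) - 2 * m * pord P x = 0 := by
  classical
  obtain ⟨g, y, h⟩ := exists_red P hx
  have hzz := h.ncard
  rw [hz] at hzz
  have h3 : y (Fin.last (m + 1)) = 0 ↔ (pol y).natDegree ≤ m := by
    constructor
    · intro h4
      have := pol_last h4 h.pol_ne
      omega
    · intro h4
      have h5 := coeff_pol y (Fin.last (m + 1))
      rw [Fin.val_last, coeff_eq_zero_of_natDegree_lt (by omega)] at h5
      exact h5.symm
  have hN1 : (pol y).natDegree ≤ m + 1 := natDegree_pol_le y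
  have h4 : (pol y).roots.toFinset.card ≤ (pol y).roots.card := Multiset.toFinset_card_le _
  have h5 := (IsAlgClosed.splits (pol y)).natDegree_eq_card_roots
  have hnd : (pol y).roots.Nodup := by
    rw [← Multiset.toFinset_card_eq_card_iff_nodup]
    split_ifs at hzz with h6
    · rw [h3] at h6
      omega
    · omega
  have hdeg : (pol y).natDegree = m + 1 ∨ (pol y).natDegree = m := by
    split_ifs at hzz with h6
    · rw [h3] at h6
      omega
    · omega
  have hdy : dsf m (pol y) ≠ 0 := by
    obtain ⟨r, hr⟩ : ∃ r : Fin (pol y).natDegree → k, (pol y).roots = Finset.univ.val.map r := by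
      rw [h5]
      refine ⟨(pol y).roots.toList.get ∘ Fin.cast (by simp), ?_⟩
      have h7 : (Finset.univ : Finset (Fin (pol y).roots.card)).val.map
          ((pol y).roots.toList.get ∘ Fin.cast (by simp)) = (pol y).roots := by
        have h8 : ∀ (n : ℕ) (l : List k) (hl : n = l.length),
            (Finset.univ : Finset (Fin n)).val.map (l.get ∘ Fin.cast hl) = (l : Multiset k) := by
          intro n l hl
          subst hl
          simp [Fin.univ_val_map]
        rw [h8, Multiset.coe_toList]
      exact h7.symm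
    have hinj : Function.Injective r := by
      rw [hr] at hnd
      have := Multiset.inj_on_of_nodup_map hnd
      intro a b hab
      exact this a (Finset.mem_univ a) b (Finset.mem_univ b) hab
    have hpol : pol y = pr (pol y).leadingCoeff r := by
      have h7 := (IsAlgClosed.splits (pol y)).eq_prod_roots
      rw [hr, Multiset.map_map] at h7
      exact h7
    rw [hpol]
    refine dsf_ne (leadingCoeff_ne_zero.2 h.pol_ne) hinj ?_
    rw [Fintype.card_fin]
    exact hdeg
  have hge := det_close (P := P) _ _ h.mat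
  have hdet : (sylvester (derivative (C g⁻¹ * pol x))
      (C ((m + 1 : ℕ) : L) * (C g⁻¹ * pol x) - X * derivative (C g⁻¹ * pol x)) m m).det =
      g⁻¹ ^ (2 * m) * dsf m (pol x) := by
    rw [← dsf_C_mul]
    rfl
  have hdet2 : (sylvester (derivative (pol y))
        (C ((m + 1 : ℕ) : k) * pol y - X * derivative (pol y)) m m).det = dsf m (pol y) := rfl
  have hgi : g⁻¹ ≠ 0 := inv_ne_zero h.g0
  rw [hdet, hdet2] at hge
  have hne := mul_ne_zero (pow_ne_zero (2 * m) hgi) hd
  have h6 : P.ord (g⁻¹ ^ (2 * m) * dsf m (pol x)) = 0 := by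
    by_cases h7 : g⁻¹ ^ (2 * m) * dsf m (pol x) - algebraMap k L (dsf m (pol y)) = 0
    · rw [sub_eq_zero.1 h7, P.ord_const hdy]
    · have h8 := hge.resolve_left h7
      have h9 := P.ord_add_eq (f := algebraMap k L (dsf m (pol y)))
        (g := g⁻¹ ^ (2 * m) * dsf m (pol x) - algebraMap k L (dsf m (pol y)))
        ((_root_.map_ne_zero _).2 hdy) h7 (by rw [P.ord_const hdy]; omega)
      rw [P.ord_const hdy] at h9
      rw [← h9.2]
      congr 1
      ring
  rw [P.ord_mul (pow_ne_zero _ hgi) hd, P.ord_pow, P.ord_inv, h.go] at h6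
  push_cast at h6
  linarith

theorem zst_pos (P : Place k L) {x : Fin (m + 2) → L} (hx : ∃ j, x j ≠ 0) :
    1 ≤ (zst P x).ncard := by
  classical
  obtain ⟨g, y, h⟩ := exists_red P hx
  rw [h.ncard]
  split_ifs with h6
  · omega
  · have h7 : (pol y).natDegree ≠ 0 := by
      have h8 := coeff_pol y (Fin.last (m + 1))
      rw [Fin.val_last] at h8
      have h9 := le_natDegree_of_ne_zero (p := pol y) (n := m + 1) (by rwa [h8])
      omega
    obtain ⟨c, hc⟩ := IsAlgClosed.exists_root (pol y) (by
      rw [degree_eq_natDegree h.pol_ne]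
      exact_mod_cast h7)
    have h8 : 0 < (pol y).roots.toFinset.card :=
      Finset.card_pos.2 ⟨c, by rw [Multiset.mem_toFinset, mem_roots h.pol_ne]; exact hc⟩
    omega

end contact

end Pool.Agent.H910.Ff
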