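import Pool.Agent.H910.Ff.Ineq
import Pool.Agent.H910.Ff.Syl

/-!
The inequality for the binary forms over the finite extensions of a function field.
-/

set_option autoImplicit false
set_option linter.unusedSectionVars false

open FF Polynomial Pool.Agent.W603.LV Pool.Agent.W603.PV

namespace Pool.Agent.H910.Ff

open Pool.Agent.Y216

variable {k : Type} [Field k] [IsAlgClosed k] [CharZero k] {F : Type} [Field F] [Algebra k F]
  [IsFF k F] {q : ℕ}

open Classical in
/-- The inequality for all algebraic points. -/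
theorem family {u v : Fin q → k} (h0 : ∀ i, u i ≠ 0 ∨ v i ≠ 0)
    (huv : ∀ i j, i ≠ j → u i * v j ≠ u j * v i) (n : ℕ) (S : Finset (Place k F)) :
    ∃ C : ℕ, ∀ (L : Type) [Field L] [Algebra k L] [Algebra F L] [IsScalarTower k F L]
      [FiniteDimensional F L] (x : Fin (n + 1) → L), Squarefree (pol x) →
      n ≤ (pol x).natDegree + 1 →
      (∀ i, {P : Place k L | (∀ w ∈ S, ¬ Over P w) ∧ i ∈ mt u v P x}.Finite) ∧
      {P : Place k L | (zst P x).ncard ≠ n}.Finite ∧
      ((q : ℤ) - 2) * pht k x ≤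
        ∑ i, ({P : Place k L | (∀ w ∈ S, ¬ Over P w) ∧ i ∈ mt u v P x}.ncard : ℤ) +
        ∑ᶠ P ∈ {P : Place k L | ∀ w ∈ S, ¬ Over P w}, ((n : ℤ) - (zst P x).ncard) +
          n * disc k F L + C * Module.finrank F L := by
  obtain ⟨C1, hC1⟩ := canDeg_le_disc.{0, 0, 0} (k := k) (F := F)
  obtain ⟨C2, hC2⟩ := over_card.{0, 0, 0} (k := k) S
  obtain ⟨t, ht⟩ := IsFF.exists_transcendental (k := k) (K := F)
  refine ⟨q * C2 + n * C2 + n * C1 + 2 * n * (hgt k t).toNat, ?_⟩
  intro L _ _ _ _ _ x hsq hdeg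
  have hL : IsFF k L := isFF_of_finite (F := F)
  obtain ⟨hSfin, hScard'⟩ := hC2 L
  have hScard : {P : Place k L | ∃ w ∈ S, Over P w}.ncard ≤ C2 * Module.finrank F L := by
    exact_mod_cast hScard'
  have hx : ∃ j, x j ≠ 0 := by
    by_contra hcon
    push Not at hcon
    apply hsq.ne_zero
    unfold pol
    exact Finset.sum_eq_zero fun j _ => by rw [hcon j, C_0, zero_mul]
  have hcan := canDeg_ge (k := k) (K := L) (t := algebraMap F L t)
    ((transcendental_algebraMap_iff (algebraMap F L).injective).2 ht)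
  rw [hgt_algebraMap t] at hcan
  have ht0 : 0 ≤ hgt k t := hgt_nonneg _
  have htn : ((hgt k t).toNat : ℤ) = hgt k t := Int.toNat_of_nonneg ht0
  obtain ⟨c, hc⟩ : ∃ c : ℤ, c = 2 * (hgt k t).toNat * Module.finrank F L := ⟨_, rfl⟩
  have hcan' : 0 ≤ canDeg k L + c := by
    rw [hc, htn]
    linarith
  have hmi : ∀ i, {P : Place k L | i ∈ mt u v P x}.Finite := by
    intro i
    refine (mtP_finite (rnc n u v i) hx).subset fun P hP => ?_
    have hP2 : i ∈ mt u v P x := hP
    unfold mt at hP2
    exact (Finset.mem_filter.1 hP2).2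
  have hbad := zst_almost (k := k) hsq hdeg
  refine ⟨fun i => (hmi i).subset fun P hP => hP.2, hbad, ?_⟩
  obtain ⟨n', T0, hn', hT0⟩ := ineq h0 huv hsq hdeg
  set T : Finset (Place k L) := T0 ∪ hbad.toFinset with hT
  have h1 := hT0 T Finset.subset_union_left
  refine h1.trans ?_
  rw [Finset.sum_add_distrib]
  have hz : ∀ P : Place k L, (0 : ℤ) ≤ (n : ℤ) - (zst P x).ncard := by
    intro P
    have := zst_le P hx
    omega
  -- the zeros
  have h2 : ∑ P ∈ T, ((n : ℤ) - (zst P x).ncard) ≤
      ∑ᶠ P ∈ {P : Place k L | ∀ w ∈ S, ¬ Over P w}, ((n : ℤ) - (zst P x).ncard) +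
        n * (C2 * Module.finrank F L : ℕ) := by
    rw [← Finset.sum_filter_add_sum_filter_not T (fun P => ∀ w ∈ S, ¬ Over P w)]
    refine add_le_add (le_of_eq ?_) ?_
    · rw [finsum_mem_eq_sum_of_inter_support_eq (s := {P : Place k L | ∀ w ∈ S, ¬ Over P w})
        (t := T.filter fun P => ∀ w ∈ S, ¬ Over P w)]
      ext P
      constructor
      · rintro ⟨h3, h4⟩
        refine ⟨Finset.mem_coe.2 (Finset.mem_filter.2 ⟨?_, h3⟩), h4⟩
        refine Finset.mem_union_right _ (hbad.mem_toFinset.2 fun h5 => h4 ?_)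
        change (n : ℤ) - (zst P x).ncard = 0
        rw [show (zst P x).ncard = n from h5, sub_self]
      · rintro ⟨h3, h4⟩
        exact ⟨(Finset.mem_filter.1 (Finset.mem_coe.1 h3)).2, h4⟩
    · have h3 : (T.filter fun P => ¬ ∀ w ∈ S, ¬ Over P w) ⊆ hSfin.toFinset := by
        intro P hP
        rw [Finset.mem_filter] at hP
        have := hP.2
        push Not at this
        exact hSfin.mem_toFinset.2 this
      have h4 := Finset.card_le_card h3
      rw [← Set.ncard_eq_toFinset_card _ hSfin] at h4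
      have h5 : ∑ P ∈ T.filter (fun P => ¬ ∀ w ∈ S, ¬ Over P w), ((n : ℤ) - (zst P x).ncard) ≤
          ∑ P ∈ T.filter (fun P => ¬ ∀ w ∈ S, ¬ Over P w), (n : ℤ) :=
        Finset.sum_le_sum fun P _ => by omega
      refine h5.trans ?_
      rw [Finset.sum_const, nsmul_eq_mul, mul_comm]
      exact mul_le_mul_of_nonneg_left (by exact_mod_cast h4.trans hScard) (by positivity)
  -- the hyperplanes
  have h3 : ∑ P ∈ T, ((mt u v P x).card : ℤ) ≤
      ∑ i, ({P : Place k L | (∀ w ∈ S, ¬ Over P w) ∧ i ∈ mt u v P x}.ncard : ℤ) +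
        q * (C2 * Module.finrank F L : ℕ) := by
    have h4 : ∑ P ∈ T, ((mt u v P x).card : ℤ) =
        ∑ i, ((T.filter fun P => i ∈ mt u v P x).card : ℤ) := by
      have h5 : ∀ P ∈ T, ((mt u v P x).card : ℤ) = ∑ i, if i ∈ mt u v P x then (1 : ℤ) else 0 := by
        intro P _
        rw [← Finset.sum_filter, Finset.sum_const, nsmul_eq_mul, mul_one]
        congr 2
        ext i
        simp
      rw [Finset.sum_congr rfl h5, Finset.sum_comm]
      refine Finset.sum_congr rfl fun i _ => ?_
      rw [← Finset.sum_filter, Finset.sum_const, nsmul_eq_mul, mul_one]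
    rw [h4]
    have h6 : ∀ i ∈ (Finset.univ : Finset (Fin q)), ((T.filter fun P => i ∈ mt u v P x).card : ℤ) ≤
        ({P : Place k L | (∀ w ∈ S, ¬ Over P w) ∧ i ∈ mt u v P x}.ncard : ℤ) +
          (C2 * Module.finrank F L : ℕ) := by
      intro i _
      have h7 : ((T.filter fun P => i ∈ mt u v P x : Finset (Place k L)) : Set (Place k L)) ⊆
          {P : Place k L | (∀ w ∈ S, ¬ Over P w) ∧ i ∈ mt u v P x} ∪
            {P : Place k L | ∃ w ∈ S, Over P w} := by
        intro P hP
        rw [Finset.mem_coe, Finset.mem_filter] at hP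
        by_cases h : ∃ w ∈ S, Over P w
        · exact Or.inr h
        · push Not at h
          exact Or.inl ⟨h, hP.2⟩
      have hf1 : {P : Place k L | (∀ w ∈ S, ¬ Over P w) ∧ i ∈ mt u v P x}.Finite :=
        (hmi i).subset fun P hP => hP.2
      have h8 := Set.ncard_le_ncard h7 (hf1.union hSfin)
      have h9 := Set.ncard_union_le
        {P : Place k L | (∀ w ∈ S, ¬ Over P w) ∧ i ∈ mt u v P x}
        {P : Place k L | ∃ w ∈ S, Over P w}
      rw [Set.ncard_coe_finset] at h8
      have h10 := (h8.trans h9).trans (Nat.add_le_add_left hScard _)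
      exact_mod_cast h10
    have h7 := Finset.sum_le_sum h6
    rw [Finset.sum_add_distrib, Finset.sum_const, Finset.card_univ, Fintype.card_fin,
      nsmul_eq_mul] at h7
    exact h7
  have h4 := hC1 L
  have h5 : (n' : ℤ) * canDeg k L ≤ n * (disc k F L + C1 * Module.finrank F L + c) := by
    have h6 : canDeg k L ≤ disc k F L + C1 * Module.finrank F L + c := by
      have : 0 ≤ c := by
        rw [hc]
        positivity
      linarith
    have h7 : 0 ≤ disc k F L + C1 * Module.finrank F L + c := by linarith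
    calc (n' : ℤ) * canDeg k L ≤ n' * (disc k F L + C1 * Module.finrank F L + c) :=
          mul_le_mul_of_nonneg_left h6 (by positivity)
      _ ≤ n * (disc k F L + C1 * Module.finrank F L + c) :=
          mul_le_mul_of_nonneg_right (by exact_mod_cast hn') h7
  rw [hc] at h5
  push_cast at h2 h3 h5 ⊢
  linarith

end Pool.Agent.H910.Ff
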