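import Pool.Agent.H910.Ff.Opt

/-!
Sums over the places, and the discriminant.
-/

set_option autoImplicit false
set_option linter.unusedSectionVars false

open FF Polynomial Pool.Agent.W603.LV Pool.Agent.W603.PV

namespace Pool.Agent.H910.Ff

open Pool.Agent.Y216 Pool.Agent.H910.Dsc

variable {k : Type} [Field k] [CharZero k] [IsAlgClosed k] {L : Type} [Field L] [Algebra k L]
  [IsFF k L] {n q : ℕ} {u v : Fin q → k}

theorem mt_le (h0 : ∀ i, u i ≠ 0 ∨ v i ≠ 0) (huv : ∀ i j, i ≠ j → u i * v j ≠ u j * v i)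
    (P : Place k L) {x : Fin (n + 1) → L} (hx : ∃ j, x j ≠ 0) :
    (mt u v P x).card ≤ (zst P x).ncard := by
  classical
  rw [← Set.ncard_coe_finset]
  refine Set.ncard_le_ncard_of_injOn (fun i => prj (u i) (v i)) (fun i hi => ?_)
    (fun i _ j _ hij => ?_) (zst_finite P hx)
  · rw [Finset.mem_coe] at hi
    unfold mt at hi
    rw [Finset.mem_filter] at hi
    obtain ⟨-, h1, h2⟩ := hi
    obtain ⟨r, hr0, hr⟩ := vl_prj (h0 i) x
    rw [hr] at h1 h2
    have h3 := right_ne_zero_of_mul h1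
    rw [P.ord_mul ((_root_.map_ne_zero _).2 hr0) h3, P.ord_const hr0, zero_add] at h2
    exact Or.inr h2
  · by_contra hne
    exact huv i j hne (prj_inj (h0 i) (h0 j) hij)

theorem mt_finite {x : Fin (n + 1) → L} (hx : ∃ j, x j ≠ 0) (i : Fin q) :
    {P : Place k L | i ∈ mt u v P x}.Finite := by
  classical
  refine (mtP_finite (rnc n u v i) hx).subset fun P hP => ?_
  have hP2 : i ∈ mt u v P x := hP
  unfold mt at hP2
  exact (Finset.mem_filter.1 hP2).2

open Classical in
theorem sum_le (h0 : ∀ i, u i ≠ 0 ∨ v i ≠ 0) (huv : ∀ i j, i ≠ j → u i * v j ≠ u j * v i)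
    {x : Fin (n + 1) → L} (hx : ∃ j, x j ≠ 0) (hbad : {P : Place k L | (zst P x).ncard ≠ n}.Finite)
    (A : Set (Place k L)) (I : Finset (Fin q)) :
    {P : Place k L | P ∈ A ∧ ((zst P x).ncard ≠ n ∨ ∃ i ∈ I, i ∈ mt u v P x)}.Finite ∧
    ∑ i ∈ I, ({P : Place k L | P ∈ A ∧ i ∈ mt u v P x}.ncard : ℤ) +
      ∑ᶠ P ∈ A, ((n : ℤ) - (zst P x).ncard) ≤
      n * ({P : Place k L | P ∈ A ∧
        ((zst P x).ncard ≠ n ∨ ∃ i ∈ I, i ∈ mt u v P x)}.ncard : ℤ) := by
  have hfin : {P : Place k L | (zst P x).ncard ≠ n ∨ ∃ i ∈ I, i ∈ mt u v P x}.Finite := by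
    have h1 : {P : Place k L | (zst P x).ncard ≠ n ∨ ∃ i ∈ I, i ∈ mt u v P x} ⊆
        {P : Place k L | (zst P x).ncard ≠ n} ∪ ⋃ i, {P : Place k L | i ∈ mt u v P x} := by
      rintro P (hP | ⟨i, -, hi⟩)
      · exact Or.inl hP
      · exact Or.inr (Set.mem_iUnion.2 ⟨i, hi⟩)
    exact (hbad.union (Set.finite_iUnion fun i => mt_finite hx i)).subset h1
  refine ⟨hfin.subset fun P hP => hP.2, ?_⟩
  obtain ⟨T, hT⟩ : ∃ T : Finset (Place k L), T = hfin.toFinset.filter fun P => P ∈ A := ⟨_, rfl⟩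
  have hTm : ∀ P, P ∈ T ↔ ((zst P x).ncard ≠ n ∨ ∃ i ∈ I, i ∈ mt u v P x) ∧ P ∈ A := by
    intro P
    rw [hT, Finset.mem_filter, Set.Finite.mem_toFinset]
    rfl
  have h1 : {P : Place k L | P ∈ A ∧ ((zst P x).ncard ≠ n ∨ ∃ i ∈ I, i ∈ mt u v P x)}.ncard =
      T.card := by
    rw [← Set.ncard_coe_finset]
    congr 1
    ext P
    rw [Finset.mem_coe, hTm]
    exact and_comm
  have h2 : ∀ i ∈ I, {P : Place k L | P ∈ A ∧ i ∈ mt u v P x}.ncard =
      (T.filter fun P => i ∈ mt u v P x).card := by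
    intro i hi
    rw [← Set.ncard_coe_finset]
    congr 1
    ext P
    rw [Finset.mem_coe, Finset.mem_filter, hTm]
    exact ⟨fun h => ⟨⟨Or.inr ⟨i, hi, h.2⟩, h.1⟩, h.2⟩, fun h => ⟨h.1.2, h.2⟩⟩
  have h3 : ∑ᶠ P ∈ A, ((n : ℤ) - (zst P x).ncard) = ∑ P ∈ T, ((n : ℤ) - (zst P x).ncard) := by
    rw [finsum_mem_eq_sum_of_inter_support_eq (s := A) (t := T)]
    ext P
    constructor
    · rintro ⟨h3, h4⟩
      refine ⟨Finset.mem_coe.2 ((hTm P).2 ⟨Or.inl fun h5 => h4 ?_, h3⟩), h4⟩
      change (n : ℤ) - (zst P x).ncard = 0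
      rw [h5, sub_self]
    · rintro ⟨h3, h4⟩
      exact ⟨((hTm P).1 (Finset.mem_coe.1 h3)).2, h4⟩
  have h4 : ∑ i ∈ I, ((T.filter fun P => i ∈ mt u v P x).card : ℤ) =
      ∑ P ∈ T, (((mt u v P x).filter fun i => i ∈ I).card : ℤ) := by
    have h5 : ∀ P ∈ T, (((mt u v P x).filter fun i => i ∈ I).card : ℤ) =
        ∑ i ∈ I, if i ∈ mt u v P x then (1 : ℤ) else 0 := by
      intro P _
      rw [← Finset.sum_filter, Finset.sum_const, nsmul_eq_mul, mul_one]
      congr 2
      ext i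
      rw [Finset.mem_filter, Finset.mem_filter]
      exact and_comm
    rw [Finset.sum_congr rfl h5, Finset.sum_comm]
    refine Finset.sum_congr rfl fun i _ => ?_
    rw [← Finset.sum_filter, Finset.sum_const, nsmul_eq_mul, mul_one]
  have h6 : ∑ i ∈ I, ({P : Place k L | P ∈ A ∧ i ∈ mt u v P x}.ncard : ℤ) =
      ∑ i ∈ I, ((T.filter fun P => i ∈ mt u v P x).card : ℤ) :=
    Finset.sum_congr rfl fun i hi => by rw [h2 i hi]
  rw [h6, h1, h3, h4, ← Finset.sum_add_distrib]
  have h5 : ∀ P ∈ T, (((mt u v P x).filter fun i => i ∈ I).card : ℤ) +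
      ((n : ℤ) - (zst P x).ncard) ≤ n := by
    intro P _
    have h7 := mt_le h0 huv P hx
    have h8 := Finset.card_filter_le (mt u v P x) fun i => i ∈ I
    omega
  refine (Finset.sum_le_sum h5).trans ?_
  rw [Finset.sum_const, nsmul_eq_mul, mul_comm]

open Classical in
/-- The places at which a form meets the discriminant or some of the hyperplanes, if the product of
their values is a power up to a constant factor. -/
theorem cyclic {m : ℕ} (h0 : ∀ i, u i ≠ 0 ∨ v i ≠ 0) {x : Fin (m + 2) → L}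
    (hx : ∃ j, x j ≠ 0) (I : Finset (Fin q)) {l w : L} (hl : l ≠ 0) (hw : w ≠ 0)
    (he : w ^ (2 * m + I.card) = l * dsf m (pol x) * ∏ i ∈ I, vl (u i) (v i) x)
    (B : Set (Place k L)) (hBf : B.Finite)
    (hB : B ⊆ {P : Place k L | (zst P x).ncard ≠ m + 1 ∨ ∃ i ∈ I, i ∈ mt u v P x}) :
    (B.ncard : ℤ) ≤ pht k x + 4 * hgt k l := by
  by_cases hMz : 2 * m + I.card = 0
  · have h9 : I = ∅ := Finset.card_eq_zero.1 (by omega)
    have h10 : m = 0 := by omega
    subst h10
    have hBe : B = ∅ := by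
      refine Set.eq_empty_of_forall_notMem fun P hPB => ?_
      rcases hB hPB with h7 | ⟨i, hi, _⟩
      · have h11 := zst_pos P hx
        have h12 := zst_le P hx
        omega
      · rw [h9] at hi
        exact absurd hi (Finset.notMem_empty _)
    rw [hBe, Set.ncard_empty]
    have h11 : 0 ≤ pht k x := pht_nonneg' hx
    have h12 : 0 ≤ hgt k l := hgt_nonneg l
    push_cast
    linarith
  have hne : l * dsf m (pol x) * ∏ i ∈ I, vl (u i) (v i) x ≠ 0 := by
    rw [← he]
    exact pow_ne_zero _ hw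
  have hd : dsf m (pol x) ≠ 0 := right_ne_zero_of_mul (left_ne_zero_of_mul hne)
  have hv := Finset.prod_ne_zero_iff.1 (right_ne_zero_of_mul hne)
  obtain ⟨T1, hT1⟩ := exists_supp (k := k) Finset.univ x
  obtain ⟨T2, hT2⟩ := exists_supp (k := k) (Finset.univ : Finset (Fin 2)) ![l, w]
  obtain ⟨T, hT⟩ : ∃ T : Finset (Place k L), T = T1 ∪ T2 ∪ hBf.toFinset := ⟨_, rfl⟩
  have hTl : ∀ P : Place k L, P.ord l ≠ 0 → P ∈ T := fun P hP => by
    have := hT2 0 (Finset.mem_univ _) P hP
    rw [hT]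
    simp [this]
  have hTw : ∀ P : Place k L, P.ord w ≠ 0 → P ∈ T := fun P hP => by
    have := hT2 1 (Finset.mem_univ _) P hP
    rw [hT]
    simp [this]
  have hTp : ∀ P : Place k L, pord P x ≠ 0 → P ∈ T := by
    intro P hP
    obtain ⟨j, _, hj⟩ := exists_pord P hx
    rw [← hj] at hP
    have := hT1 j (Finset.mem_univ _) P hP
    rw [hT]
    simp [this]
  have hBT : ∀ P ∈ B, P ∈ T := fun P hP => by
    rw [hT]
    simp [hP]
  -- the local estimate
  have hloc : ∀ P : Place k L, (if P ∈ B then (1 : ℤ) else 0) ≤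
      (P.ord w - pord P x) + 2 * (max (P.ord l) 0 + max (-P.ord l) 0) := by
    intro P
    have h1 := congrArg P.ord he
    rw [P.ord_pow, P.ord_mul (left_ne_zero_of_mul hne) (right_ne_zero_of_mul hne),
      P.ord_mul hl hd, Pool.Agent.W602.GT.ord_prod' P _ _ hv] at h1
    have h2 := zst_ge P hx hd
    have h3 := zst_le P hx
    have h4 : ∀ i ∈ I, 0 ≤ P.ord (vl (u i) (v i) x) - pord P x := by
      intro i hi
      have := pord_le_lv P (rnc (m + 1) u v i) (f := x) (hv i hi)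
      have e : lv (rnc (m + 1) u v i) x = vl (u i) (v i) x := rfl
      rw [e] at this
      omega
    have h5 : ∑ i ∈ I, P.ord (vl (u i) (v i) x) =
        ∑ i ∈ I, (P.ord (vl (u i) (v i) x) - pord P x) + I.card * pord P x := by
      rw [Finset.sum_sub_distrib, Finset.sum_const, nsmul_eq_mul]
      ring
    obtain ⟨a, ha⟩ : ∃ a, a = P.ord (dsf m (pol x)) - 2 * m * pord P x := ⟨_, rfl⟩
    obtain ⟨b, hb⟩ : ∃ b, b = ∑ i ∈ I, (P.ord (vl (u i) (v i) x) - pord P x) := ⟨_, rfl⟩
    obtain ⟨τ, hτ⟩ : ∃ τ, τ = P.ord w - pord P x := ⟨_, rfl⟩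
    have hb0 : 0 ≤ b := by
      rw [hb]
      exact Finset.sum_nonneg h4
    have ha0 : 0 ≤ a := by
      rw [ha]
      omega
    have h6 : ((2 * m + I.card : ℕ) : ℤ) * τ = P.ord l + a + b := by
      rw [h5, ← hb] at h1
      rw [hτ, ha]
      push_cast at h1 ⊢
      linear_combination h1
    rw [← hτ]
    obtain ⟨M, hM⟩ : ∃ M : ℤ, M = ((2 * m + I.card : ℕ) : ℤ) := ⟨_, rfl⟩
    rw [← hM] at h6
    have hM1 : 1 ≤ M := by
      rw [hM]
      omega
    by_cases hPB : P ∈ B
    · rw [if_pos hPB]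
      -- the contact is positive
      have hab : 0 < a + b := by
        rcases hB hPB with h7 | ⟨i, hi, h7⟩
        · rw [← ha] at h2
          omega
        · unfold mt at h7
          rw [Finset.mem_filter] at h7
          have h8 := Finset.single_le_sum h4 hi
          rw [← hb] at h8
          omega
      by_cases hl0 : P.ord l = 0
      · rw [hl0, zero_add] at h6
        rw [hl0]
        have h7 : 0 < M * τ := by omega
        have h8 : 0 < τ := by
          by_contra hcon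
          push Not at hcon
          nlinarith
        simp
        omega
      · have h7 : 1 ≤ max (P.ord l) 0 + max (-P.ord l) 0 := by omega
        have h8 : - (max (P.ord l) 0 + max (-P.ord l) 0) ≤ τ := by
          by_contra hcon
          push Not at hcon
          have h9 : M * τ ≤ τ := by nlinarith
          omega
        omega
    · rw [if_neg hPB]
      by_contra hcon
      push Not at hcon
      have h9 : τ < 0 := by omega
      have h10 : M * τ ≤ τ := by nlinarith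
      omega
  have h1 : (B.ncard : ℤ) = ∑ P ∈ T, if P ∈ B then (1 : ℤ) else 0 := by
    rw [← Finset.sum_filter, Finset.sum_const, nsmul_eq_mul, mul_one, ← Set.ncard_coe_finset]
    congr 2
    ext P
    rw [Finset.mem_coe, Finset.mem_filter]
    exact ⟨fun h => ⟨hBT P h, h⟩, fun h => h.2⟩
  rw [h1]
  refine (Finset.sum_le_sum fun P _ => hloc P).trans (le_of_eq ?_)
  have h2 : ∑ P ∈ T, pord P x = - pht k x := by
    unfold pht
    rw [neg_neg, finsum_eq_sum_of_support_subset (s := T)]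
    intro P hP
    exact Finset.mem_coe.2 (hTp P hP)
  have h3 : ∑ P ∈ T, max (-P.ord l) 0 = hgt k l := (hgt_finset l T hTl).symm
  have h4 : ∑ P ∈ T, max (P.ord l) 0 = hgt k l := by
    rw [← h3]
    have h5 := sum_ord_finset l T hTl
    have h6 : ∑ P ∈ T, max (P.ord l) 0 - ∑ P ∈ T, max (-P.ord l) 0 = ∑ P ∈ T, P.ord l := by
      rw [← Finset.sum_sub_distrib]
      refine Finset.sum_congr rfl fun P _ => ?_
      omega
    omega
  rw [Finset.sum_add_distrib, Finset.sum_sub_distrib, ← Finset.mul_sum, Finset.sum_add_distrib,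
    sum_ord_finset w T hTw, h2, h3, h4]
  ring

section disc

variable {m : ℕ}

theorem disc_sqf {K : Type} [Field K] [CharZero K] {x : Fin (m + 2) → K} (hx : ∃ j, x j ≠ 0)
    (hd : dsf m (pol x) ≠ 0) : Squarefree (pol x) ∧ m + 1 ≤ (pol x).natDegree + 1 := by
  have h0 : pol x ≠ 0 := by
    obtain ⟨j, hj⟩ := hx
    intro h
    apply hj
    rw [← coeff_pol x j, h, coeff_zero]
  obtain ⟨h1, h2⟩ := sqf_of_dsf h0 (natDegree_pol_le x) hd
  exact ⟨h1, by omega⟩

/-- the discriminant as a polynomial -/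
theorem exists_disc_poly (K : Type) [Field K] [CharZero K] (m : ℕ) :
    ∃ Q : MvPolynomial (Fin (m + 2)) K, Q ≠ 0 ∧ ∀ x : Fin (m + 2) → K,
      MvPolynomial.aeval x Q = bdisc x := by
  have hev : ∀ x : Fin (m + 2) → K, MvPolynomial.aeval x
      (bdisc fun j : Fin (m + 2) => (MvPolynomial.X j : MvPolynomial (Fin (m + 2)) K)) =
      bdisc x := by
    intro x
    have h1 := map_bdisc (MvPolynomial.aeval x : MvPolynomial (Fin (m + 2)) K →ₐ[K] K).toRingHom
      fun j : Fin (m + 2) => (MvPolynomial.X j : MvPolynomial (Fin (m + 2)) K)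
    refine h1.trans ?_
    congr 1
    funext j
    exact MvPolynomial.aeval_X x j
  refine ⟨_, fun h => ?_, hev⟩
  -- a form with distinct zeros
  obtain ⟨p, hp⟩ : ∃ p : K[X], p = pr (1 : K) fun j : Fin (m + 1) => ((j : ℕ) : K) := ⟨_, rfl⟩
  have hdeg : p.natDegree ≤ m + 1 := by
    rw [hp, pr_natDegree one_ne_zero, Fintype.card_fin]
  have hd : dsf m p ≠ 0 := by
    rw [hp]
    refine dsf_ne one_ne_zero (fun i j hij => ?_) (Or.inl (Fintype.card_fin _))
    exact Fin.ext (Nat.cast_injective hij)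
  rw [eq_pol hdeg, ← bdisc_eq, ← hev, h, map_zero] at hd
  exact hd rfl

end disc

end Pool.Agent.H910.Ff
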