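import Pool.Agent.H910.Ff.Cnt

/-!
The inequality for the binary forms over a function field.
-/

set_option autoImplicit false
set_option linter.unusedSectionVars false

open FF Polynomial Pool.Agent.W603.LV Pool.Agent.W603.PV Pool.Agent.W602.GT

namespace Pool.Agent.H910.Ff

open Pool.Agent.Y190.BV Pool.Agent.H910.Dsc Pool.Agent.Y216

variable {k L : Type} [Field k] [CharZero k] [IsAlgClosed k] [Field L] [Algebra k L] [IsFF k L]
  {n q : ℕ} {x : Fin (n + 1) → L} {u v : Fin q → k}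

theorem exists_fac (hsq : Squarefree (pol x)) (hdeg : n ≤ (pol x).natDegree + 1) :
    ∃ (Pc : k[X]) (G : L[X]), Fac x Pc G := by
  obtain ⟨Pc, G, h1, h2, h3⟩ := split_const (k := k) hsq.ne_zero
  exact ⟨Pc, G, hsq, hdeg, h1, h2, h3⟩

open Classical in
/-- the local inequality -/
theorem local_ineq {Pc : k[X]} {G : L[X]} (h : Fac x Pc G) (h0 : ∀ i, u i ≠ 0 ∨ v i ≠ 0)
    (huv : ∀ i j, i ≠ j → u i * v j ≠ u j * v i) {D : Derivation k L L} (hD : D ≠ 0) :
    ∃ y : L, y ≠ 0 ∧ ∀ P : Place k L,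
      ∑ a ∈ fin u v, ct P G a + (2 - (if ∃ i, u i = 0 then 1 else 0)) *
        (pord P x - P.ord G.leadingCoeff) + G.natDegree * vo P D - P.ord y ≤
      (n : ℤ) - (zst P x).ncard + (mt u v P x).card := by
  have hl : G.leadingCoeff ≠ 0 := leadingCoeff_ne_zero.2 h.G0
  have hchL : CharZero L := charZero_of_injective_algebraMap (algebraMap k L).injective
  obtain ⟨H, hH⟩ : ∃ H, H = C G.leadingCoeff⁻¹ * G := ⟨_, rfl⟩
  have hli : G.leadingCoeff⁻¹ ≠ 0 := inv_ne_zero hl
  have hm : H.Monic := by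
    rw [hH, mul_comm]
    exact monic_mul_leadingCoeff_inv h.G0
  have hGsq : Squarefree G := by
    have := h.sq
    rw [h.eq] at this
    exact this.of_mul_right
  have hHsq : Squarefree H := by
    refine hGsq.squarefree_of_dvd ?_
    rw [hH]
    refine ⟨C G.leadingCoeff, ?_⟩
    have : C G.leadingCoeff⁻¹ * G * C G.leadingCoeff = (C G.leadingCoeff⁻¹ * C G.leadingCoeff) * G := by
      ring
    rw [this, ← C_mul, inv_mul_cancel₀ hl, C_1, one_mul]
  have hHn : H.natDegree = G.natDegree := by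
    rw [hH, natDegree_C_mul hli]
  have hHe : ∀ c : k, H.eval (algebraMap k L c) ≠ 0 := by
    intro c
    rw [hH, eval_mul, eval_C]
    exact mul_ne_zero hli (h.ne c)
  obtain ⟨y, n', hy0, hn', hy⟩ := exists_y hm hHsq hD
  have hcR : cR k H = ∅ := by
    ext c
    exact ⟨fun hc => absurd hc (hHe c), fun hc => absurd hc (Set.notMem_empty _)⟩
  rw [hcR, Set.ncard_empty, add_zero, hHn] at hn'
  refine ⟨y, hy0, fun P => ?_⟩
  obtain ⟨g, r, hr⟩ := exists_red P h.x0
  have hinf : Infinite k := inferInstance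
  have h1 := hy P (fin u v ∪ (((pol r).roots.toFinset \ Pc.roots.toFinset) \ fin u v))
    fun b _ => hHe b
  rw [Finset.sum_union Finset.disjoint_sdiff] at h1
  have hctH : ∀ b : k, ct P H b = ct P G b := by
    intro b
    rw [hH]
    exact ct_C_mul P hli (h.ne b)
  have h2 : ((((pol r).roots.toFinset \ Pc.roots.toFinset) \ fin u v).card : ℤ) ≤
      ∑ b ∈ ((pol r).roots.toFinset \ Pc.roots.toFinset) \ fin u v, ct P H b := by
    rw [Finset.card_eq_sum_ones]
    push_cast
    refine Finset.sum_le_sum fun b hb => ?_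
    rw [Finset.mem_sdiff, Finset.mem_sdiff, Multiset.mem_toFinset, Multiset.mem_toFinset,
      mem_roots hr.pol_ne, mem_roots h.p0, IsRoot, IsRoot, ← hr.some_iff] at hb
    obtain ⟨⟨h3, h4⟩, -⟩ := hb
    rw [hctH, ← h.ct_eq P h4]
    have h5 : (pol x).eval (algebraMap k L b) ≠ 0 := fun h6 => h4 ((h.eval_iff b).1 h6)
    unfold ct
    rw [cnt_pol P h.x0]
    rcases h3 with h3 | h3
    · rw [vl_some] at h3
      exact absurd h3 h5
    · rw [vl_some] at h3
      omega
  have h3 : ∑ b ∈ fin u v, ct P H b = ∑ b ∈ fin u v, ct P G b :=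
    Finset.sum_congr rfl fun b _ => hctH b
  have h4 : cnt P H = pord P x - P.ord G.leadingCoeff := by
    rw [hH, cnt_mul P (C_ne_zero.2 hli) h.G0, cnt_C P hli, h.cnt_eq, P.ord_inv]
    ring
  have h5 := zeros_eq h h0 huv hr
  have h6 : pord P x ≤ P.ord G.leadingCoeff := by
    rw [← h.cnt_eq P]
    exact one_le_of_ge hl (cnt_ge P G _)
  have h7 : (if r (Fin.last n) = 0 ∧ x (Fin.last n) ≠ 0 then (1 : ℤ) else 0) ≤
      P.ord G.leadingCoeff - pord P x := by
    split_ifs with h8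
    · rw [h.lead_eq P h8.2]
      have h9 := hr.none_iff.2 h8.1
      rcases h9 with h9 | h9
      · rw [vl_none] at h9
        exact absurd h9 h8.2
      · rw [vl_none] at h9
        omega
    · omega
  rw [h3, h4, hn'] at h1
  have h8 : (1 - (if ∃ i, u i = 0 then 1 else 0) : ℤ) *
        (if r (Fin.last n) = 0 ∧ x (Fin.last n) ≠ 0 then 1 else 0) ≤
      (1 - (if ∃ i, u i = 0 then 1 else 0)) * (P.ord G.leadingCoeff - pord P x) := by
    refine mul_le_mul_of_nonneg_left h7 ?_
    split_ifs <;> norm_num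
  linarith

open Classical in
/-- **The inequality.** -/
theorem ineq (h0 : ∀ i, u i ≠ 0 ∨ v i ≠ 0) (huv : ∀ i j, i ≠ j → u i * v j ≠ u j * v i)
    (hsq : Squarefree (pol x)) (hdeg : n ≤ (pol x).natDegree + 1) :
    ∃ (n' : ℕ) (T0 : Finset (Place k L)), n' ≤ n ∧ ∀ T, T0 ⊆ T →
      ((q : ℤ) - 2) * pht k x ≤
        ∑ P ∈ T, ((n : ℤ) - (zst P x).ncard + (mt u v P x).card) + n' * canDeg k L := by
  obtain ⟨Pc, G, h⟩ := exists_fac (k := k) hsq hdeg
  obtain ⟨D, hD⟩ := exists_der (k := k) (K := L)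
  obtain ⟨y, hy0, hy⟩ := local_ineq h h0 huv hD
  have hl : G.leadingCoeff ≠ 0 := leadingCoeff_ne_zero.2 h.G0
  obtain ⟨T1, hT1⟩ := exists_supp (k := k) Finset.univ x
  obtain ⟨T2, hT2⟩ := exists_supp (k := k) (fin u v) fun a => G.eval (algebraMap k L a)
  obtain ⟨T3, hT3⟩ := exists_supp (k := k) (Finset.univ : Finset (Fin 2)) ![y, G.leadingCoeff]
  refine ⟨G.natDegree, T1 ∪ T2 ∪ T3 ∪ (vo_finite hD).toFinset, ?_, fun T hT => ?_⟩
  · have := h.n_eq
    omega
  have hp : ∀ P : Place k L, pord P x ≠ 0 → P ∈ T := by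
    intro P hP
    obtain ⟨j, _, hj⟩ := exists_pord P h.x0
    rw [← hj] at hP
    have := hT1 j (Finset.mem_univ _) P hP
    exact hT (by simp [this])
  have hv : ∀ P : Place k L, vo P D ≠ 0 → P ∈ T := by
    intro P hP
    exact hT (by simp [hP])
  have hyT : ∀ P : Place k L, P.ord y ≠ 0 → P ∈ T := by
    intro P hP
    have := hT3 0 (Finset.mem_univ _) P hP
    exact hT (by simp [this])
  have hlT : ∀ P : Place k L, P.ord G.leadingCoeff ≠ 0 → P ∈ T := by
    intro P hP
    have := hT3 1 (Finset.mem_univ _) P hP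
    exact hT (by simp [this])
  have haT : ∀ a ∈ fin u v, ∀ P : Place k L, P.ord (G.eval (algebraMap k L a)) ≠ 0 → P ∈ T := by
    intro a ha P hP
    have := hT2 a ha P hP
    exact hT (by simp [this])
  have hs1 : ∑ P ∈ T, pord P x = - pht k x := by
    unfold pht
    rw [neg_neg, finsum_eq_sum_of_support_subset (s := T)]
    intro P hP
    exact Finset.mem_coe.2 (hp P hP)
  have hs2 : ∑ P ∈ T, vo P D = - canDeg k L := canDeg_finset hD T hv
  have hs3 : ∑ P ∈ T, P.ord y = 0 := sum_ord_finset y T hyT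
  have hs4 : ∑ P ∈ T, P.ord G.leadingCoeff = 0 := sum_ord_finset _ T hlT
  have hs5 : ∑ P ∈ T, ∑ a ∈ fin u v, ct P G a = (fin u v).card * pht k x := by
    rw [Finset.sum_comm]
    have : ∀ a ∈ fin u v, ∑ P ∈ T, ct P G a = pht k x := by
      intro a ha
      unfold ct
      rw [Finset.sum_sub_distrib, sum_ord_finset _ T (haT a ha)]
      simp only [h.cnt_eq]
      rw [hs1]
      ring
    rw [Finset.sum_congr rfl this, Finset.sum_const, nsmul_eq_mul]
  have h1 := Finset.sum_le_sum fun P (_ : P ∈ T) => hy P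
  rw [Finset.sum_sub_distrib, Finset.sum_add_distrib, Finset.sum_add_distrib, ← Finset.mul_sum,
    ← Finset.mul_sum, Finset.sum_sub_distrib, hs1, hs2, hs3, hs4, hs5] at h1
  have h2 := card_fin huv
  have h3 : (q : ℤ) = (fin u v).card + (if ∃ i, u i = 0 then 1 else 0) := by
    exact_mod_cast h2
  rw [h3]
  linarith

end Pool.Agent.H910.Ff
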