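import Pool.Agent.H910.Dsc.Loc
import Pool.Graph.R_seed8.Y190.BV.Core
import Pool.Graph.R_seed8.W619.PQ.Curve
import Pool.Graph.R_pool_sql_team_seeded_1acbe0a2.Y216.TrB

/-!
The product of the derivatives of the roots of a polynomial over a function field, and its orders.
-/

set_option autoImplicit false
set_option linter.unusedSectionVars false

open FF Polynomial Pool.Agent.W603.LV Pool.Agent.W602.GT

namespace Pool.Agent.H910.Ff

open Pool.Agent.Y190.BV Pool.Agent.H910.Dsc

section loc

variable {k L : Type} [Field k] [CharZero k] [IsAlgClosed k] [Field L] [Algebra k L] [IsFF k L]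

/-- The order of the derivative of an element. -/
theorem der_ge (W : Place k L) {E : Derivation k L L} (hE : E ≠ 0) (B : Finset k) {t : L}
    (ht : ∀ c : k, t ≠ algebraMap k L c) :
    E t ≠ 0 ∧ ∑ b ∈ B, vv W t b - tau W t - 1 + vo W E ≤ W.ord (E t) := by
  classical
  have hEt : E t ≠ 0 := by
    intro h
    obtain ⟨c, hc⟩ := const_of_der hE h
    exact ht c hc
  refine ⟨hEt, ?_⟩
  by_cases hτ : 0 < tau W t
  · have h1 : W.ord t = - tau W t := by
      unfold tau at hτ ⊢
      rcases max_cases 0 (- W.ord t) with ⟨h2, _⟩ | ⟨h2, _⟩ <;> omega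
    have h2 := (ord_der W hE (f := t) (by omega)).2
    have h3 : ∑ b ∈ B, vv W t b = 0 := by
      refine Finset.sum_eq_zero fun b _ => ?_
      by_contra hne
      have h4 := tau_of_vv W (ht b) (lt_of_le_of_ne (vv_nonneg W (ht b)) (Ne.symm hne))
      omega
    rw [h3, h2, h1]
    linarith
  · have h0 : tau W t = 0 := le_antisymm (not_lt.1 hτ) (tau_nonneg W t)
    have h1 : Ge W 0 t := by
      have := ge_tau W t
      rwa [h0, neg_zero] at this
    obtain ⟨c, hc⟩ := exists_const W h1
    have hc0 : t - algebraMap k L c ≠ 0 := sub_ne_zero.2 (ht c)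
    have hc1 := hc.resolve_left hc0
    have h2 := (ord_der W hE (f := t - algebraMap k L c) (by omega)).2
    rw [map_sub, E.map_algebraMap, sub_zero] at h2
    have h3 : vv W t c = W.ord (t - algebraMap k L c) := by
      unfold vv
      rw [h0, add_zero]
    have h4 : ∑ b ∈ B, vv W t b ≤ vv W t c := by
      have h5 : ∀ b ∈ B, b ≠ c → vv W t b = 0 := fun b _ hb =>
        vv_zero (Ne.symm hb) (ht c) (ht b) (by omega)
      by_cases hcB : c ∈ B
      · rw [Finset.sum_eq_single c h5 (fun h => absurd hcB h)]
      · rw [Finset.sum_eq_zero fun b hb => h5 b hb (fun h => hcB (h ▸ hb))]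
        exact vv_nonneg W (ht c)
    rw [h2, h0]
    linarith

end loc

section glob

variable {k L M : Type} [Field k] [CharZero k] [IsAlgClosed k] [Field L] [Algebra k L] [IsFF k L]
  [Field M] [Algebra k M] [Algebra L M] [IsScalarTower k L M] [IsFF k M]

theorem comm_gal {D : Derivation k L L} {E : Derivation k M M}
    (hext : ∀ z : L, E (algebraMap L M z) = algebraMap L M (D z)) (s : M ≃ₐ[L] M) (z : M) :
    s (E z) = E (s z) := by
  obtain ⟨t, ht⟩ := IsFF.exists_transcendental (k := k) (K := L)
  have htE := Pool.Agent.W619.PQ.transcendental_map (E := M) ht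
  have h1 : Pool.Agent.W619.PQ.conjDer (rs s) E (algebraMap L M t) = E (algebraMap L M t) := by
    rw [Pool.Agent.W619.PQ.conjDer_apply]
    have h2 : (rs (k := k) s).symm (algebraMap L M t) = algebraMap L M t := by
      rw [AlgEquiv.symm_apply_eq]
      exact (s.commutes t).symm
    rw [h2, hext]
    exact s.commutes _
  have h2 := Pool.Agent.W619.PQ.der_ext htE h1 (rs (k := k) s z)
  rw [Pool.Agent.W619.PQ.conjDer_apply, AlgEquiv.symm_apply_apply] at h2
  exact h2

end glob

section main

variable {k L : Type} [Field k] [CharZero k] [IsAlgClosed k] [Field L] [Algebra k L] [IsFF k L]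

/-- the constant roots -/
def cR (k : Type) {L : Type} [Field k] [Field L] [Algebra k L] (H : L[X]) : Set k :=
  {c | H.eval (algebraMap k L c) = 0}

theorem cR_finite {H : L[X]} (hH : H ≠ 0) : (cR k H).Finite := by
  classical
  refine Set.Finite.of_finite_image (f := algebraMap k L) ?_
    ((algebraMap k L).injective.injOn)
  refine (H.roots.toFinset.finite_toSet).subset ?_
  rintro _ ⟨c, hc, rfl⟩
  rw [Finset.mem_coe, Multiset.mem_toFinset, mem_roots hH]
  exact hc

/-- **The product of the derivatives of the roots.** -/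
theorem exists_y {H : L[X]} (hm : H.Monic) (hsq : Squarefree H) {D : Derivation k L L}
    (hD : D ≠ 0) : ∃ (y : L) (n' : ℕ), y ≠ 0 ∧ n' + (cR k H).ncard = H.natDegree ∧
      ∀ (P : Place k L) (B : Finset k), (∀ b ∈ B, H.eval (algebraMap k L b) ≠ 0) →
        ∑ b ∈ B, ct P H b + cnt P H + n' * vo P D - n' ≤ P.ord y := by
  classical
  have hchL : CharZero L := charZero_of_injective_algebraMap (algebraMap k L).injective
  have hsep : H.Separable := PerfectField.separable_iff_squarefree.2 hsq
  let M := H.SplittingField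
  have hgal : IsGalois L M := IsGalois.of_separable_splitting_field hsep
  have hFFM : IsFF k M := Pool.Agent.W603.PV.isFF_of_finite (F := L)
  obtain ⟨E, hE, hext⟩ := Pool.Agent.W619.PQ.exists_ext (E := M) D hD
  obtain ⟨r, hr, hroot, hcoef⟩ := exists_roots (L := M) H hsep (SplittingField.splits H)
  have hRD : RD H H.natDegree (Fin H.natDegree) r := by
    refine ⟨hr, ?_, hm.ne_zero, Or.inr ?_⟩
    · ext j
      rw [coeff_map, hcoef j]
      unfold pr
      rw [coeff_C_mul]
    · rw [Fintype.card_fin]
  have hall : ∀ z : M, aeval z H = 0 ↔ ∃ x, r x = z := by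
    intro z
    constructor
    · intro hz
      rw [← eval_map_algebraMap, hRD.eq] at hz
      unfold pr at hz
      rw [eval_mul, eval_C, eval_prod, hm.leadingCoeff, map_one, one_mul,
        Finset.prod_eq_zero_iff] at hz
      obtain ⟨x, -, hx⟩ := hz
      rw [eval_sub, eval_X, eval_C, sub_eq_zero] at hx
      exact ⟨x, hx.symm⟩
    · rintro ⟨x, rfl⟩
      exact hroot x
  set R : Finset (Fin H.natDegree) := Finset.univ.filter fun x =>
    ∀ c : k, r x ≠ algebraMap k M c with hR
  have hRm : ∀ x, x ∈ R ↔ ∀ c : k, r x ≠ algebraMap k M c := by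
    intro x
    rw [hR, Finset.mem_filter, and_iff_right (Finset.mem_univ _)]
  set Y : M := ∏ x ∈ R, E (r x) with hY
  have hYfix : ∀ s : M ≃ₐ[L] M, s Y = Y := by
    intro s
    have h1 : ∀ x, ∃ x', r x' = s (r x) := by
      intro x
      have h2 := aeval_algHom_apply s (r x) H
      rw [hroot x, map_zero] at h2
      exact (hall _).1 h2
    choose σ hσ using h1
    have hσi : Function.Injective σ := by
      intro x x' hx
      apply hr
      apply s.injective
      rw [← hσ, ← hσ, hx]
    have hσR : ∀ x, σ x ∈ R ↔ x ∈ R := by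
      intro x
      rw [hRm, hRm]
      refine forall_congr' fun c => not_congr ?_
      rw [hσ]
      constructor
      · intro h
        apply s.injective
        rw [h, IsScalarTower.algebraMap_apply k L M, s.commutes]
      · intro h
        rw [h, IsScalarTower.algebraMap_apply k L M, s.commutes]
    have hbij : Function.Bijective σ := Finite.injective_iff_bijective.1 hσi
    rw [hY, map_prod]
    refine Finset.prod_bij (fun x _ => σ x) (fun x hx => (hσR x).2 hx)
      (fun x _ x' _ h => hσi h) (fun x hx => ?_) (fun x _ => ?_)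
    · obtain ⟨x', rfl⟩ := hbij.2 x
      exact ⟨x', (hσR x').1 hx, rfl⟩
    · rw [comm_gal hext, hσ]
  have hYL : Y ∈ Set.range (algebraMap L M) := by
    rw [IsGalois.mem_range_algebraMap_iff_fixed]
    exact hYfix
  obtain ⟨y, hy⟩ := hYL
  have hE0 : ∀ x ∈ R, E (r x) ≠ 0 := fun x hx => by
    intro h
    obtain ⟨c, hc⟩ := const_of_der hE h
    exact (hRm x).1 hx c hc
  have hY0 : Y ≠ 0 := Finset.prod_ne_zero_iff.2 hE0
  have hy0 : y ≠ 0 := by
    rintro rfl
    rw [map_zero] at hy
    exact hY0 hy.symm
  have hcard : R.card + (cR k H).ncard = H.natDegree := by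
    have h1 : (Finset.univ.filter fun x => ¬ ∀ c : k, r x ≠ algebraMap k M c).card =
        (cR k H).ncard := by
      rw [← Set.ncard_coe_finset, ← Set.ncard_image_of_injective _ hr,
        ← Set.ncard_image_of_injective _ (algebraMap k M).injective]
      congr 1
      ext z
      constructor
      · rintro ⟨x, hx, rfl⟩
        rw [Finset.mem_coe, Finset.mem_filter] at hx
        have hx2 := hx.2
        push Not at hx2
        obtain ⟨c, hc⟩ := hx2
        refine ⟨c, ?_, hc.symm⟩
        have h2 := hroot x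
        rw [hc, IsScalarTower.algebraMap_apply k L M, aeval_algebraMap_apply, map_eq_zero,
          coe_aeval_eq_eval] at h2
        exact h2
      · rintro ⟨c, hc, rfl⟩
        have h2 : aeval (algebraMap k M c) H = 0 := by
          rw [IsScalarTower.algebraMap_apply k L M, aeval_algebraMap_apply, map_eq_zero,
            coe_aeval_eq_eval]
          exact hc
        obtain ⟨x, hx⟩ := (hall _).1 h2
        refine ⟨x, ?_, hx⟩
        rw [Finset.mem_coe, Finset.mem_filter]
        refine ⟨Finset.mem_univ _, fun h => h c hx⟩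
    rw [← h1, hR, Finset.card_filter_add_card_filter_not, Finset.card_univ, Fintype.card_fin]
  refine ⟨y, R.card, hy0, hcard, fun P B hB => ?_⟩
  obtain ⟨e, W, hWP⟩ := Pool.Agent.W619.PQ.exists_place_over (E := M) P
  have he : (0 : ℤ) < e := by exact_mod_cast hWP.1
  have hvo := Pool.Agent.W619.PQ.vo_over hWP hD hE hext
  have h1 : W.ord Y = e * P.ord y := by rw [← hy, hWP.2]
  have h2 : W.ord Y = ∑ x ∈ R, W.ord (E (r x)) := ord_prod' W _ _ hE0
  have h3 : ∀ x ∈ R, ∑ b ∈ B, vv W (r x) b - tau W (r x) - 1 + vo W E ≤ W.ord (E (r x)) :=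
    fun x hx => (der_ge W hE B ((hRm x).1 hx)).2
  have h4 := Finset.sum_le_sum h3
  rw [← h2, h1, Finset.sum_add_distrib, Finset.sum_sub_distrib, Finset.sum_sub_distrib,
    Finset.sum_const, Finset.sum_const, nsmul_eq_mul, nsmul_eq_mul, hvo] at h4
  have h5 : ∑ x ∈ R, tau W (r x) = - (e * cnt P H) := by
    have h6 := cnt_pr W (h := algebraMap L M H.leadingCoeff) hRD.lead r
    rw [← hRD.eq, cnt_map hWP hRD.ne, hm.leadingCoeff, map_one, W.ord_one, zero_sub] at h6
    rw [h6, neg_neg]
    refine Finset.sum_subset (Finset.subset_univ _) fun x _ hx => ?_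
    rw [hRm] at hx
    push Not at hx
    obtain ⟨c, hc⟩ := hx
    rw [hc, Dsc.tau_const]
  have h6 : ∑ x ∈ R, ∑ b ∈ B, vv W (r x) b = e * ∑ b ∈ B, ct P H b := by
    rw [Finset.sum_comm, Finset.mul_sum]
    refine Finset.sum_congr rfl fun b hb => ?_
    obtain ⟨h7, h8⟩ := hRD.sum_vv hWP (hB b hb)
    rw [← h8]
    refine Finset.sum_subset (Finset.subset_univ _) fun x _ hx => ?_
    rw [hRm] at hx
    push Not at hx
    obtain ⟨c, hc⟩ := hx
    have hcb : c ≠ b := by
      rintro rfl
      exact h7 x hc
    unfold vv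
    rw [hc, Dsc.tau_const, add_zero, ← map_sub, W.ord_const (sub_ne_zero.2 hcb)]
  rw [h5, h6] at h4
  have h7 : (e : ℤ) * (∑ b ∈ B, ct P H b + cnt P H + R.card * vo P D - R.card) ≤ e * P.ord y := by
    linarith
  exact le_of_mul_le_mul_left h7 he

end main

end Pool.Agent.H910.Ff
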