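import Pool.Agent.H910.Ff.OptB

/-!
The coefficient of the inequality is optimal.
-/

set_option autoImplicit false
set_option linter.unusedSectionVars false

open FF Polynomial Pool.Agent.W603.LV Pool.Agent.W603.PV

namespace Pool.Agent.H910.Ff

open Pool.Agent.Y216

variable {k : Type} [Field k] [CharZero k] [IsAlgClosed k] {F : Type} [Field F] [Algebra k F]
  [IsFF k F] {n q : ℕ}

/-- the parameters can be chosen constant -/
theorem exists_c {U V U' V' : k} {s : F} (hd : U * V' - U' * V ≠ 0)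
    (hs : ∀ b : k, s ≠ algebraMap k F b) {G : MvPolynomial (Fin (n + 1)) F} (hG : G ≠ 0) :
    ∃ (c0 : k) (c : Fin n → k), Dat U V U' V' s c0 c ∧
      MvPolynomial.aeval (xF n U V U' V' s c0 c) G ≠ 0 := by
  classical
  have hik : Infinite k := IsAlgClosed.instInfinite
  have hiF : Infinite F := Infinite.of_injective _ (algebraMap k F).injective
  have hs0 : s ≠ 0 := by
    have := hs 0
    rwa [map_zero] at this
  have hUV : U' ≠ 0 ∨ V' ≠ 0 := by
    by_contra hcon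
    push Not at hcon
    apply hd
    rw [hcon.1, hcon.2]
    ring
  obtain ⟨Φ, hΦ, hΦe⟩ := dense_prodF (U := algebraMap k F U) (V := algebraMap k F V)
    (U' := algebraMap k F U') (V' := algebraMap k F V') (s := s)
    (by
      rw [← map_mul, ← map_mul, ← map_sub]
      exact (_root_.map_ne_zero _).2 hd) hs0
    (hUV.imp (fun h => (_root_.map_ne_zero _).2 h) (fun h => (_root_.map_ne_zero _).2 h)) hG
  obtain ⟨Q, hQ⟩ : ∃ Q : MvPolynomial (Fin (n + 1)) F, Q = Φ * (∏ j, MvPolynomial.X j) *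
      ∏ i : Fin (n + 1), ∏ j ∈ Finset.univ.erase i, (MvPolynomial.X i - MvPolynomial.X j) :=
    ⟨_, rfl⟩
  have hQ0 : Q ≠ 0 := by
    rw [hQ]
    refine mul_ne_zero (mul_ne_zero hΦ (Finset.prod_ne_zero_iff.2 fun j _ =>
      MvPolynomial.X_ne_zero _)) (Finset.prod_ne_zero_iff.2 fun i _ =>
        Finset.prod_ne_zero_iff.2 fun j hj => ?_)
    rw [sub_ne_zero]
    intro h
    exact (Finset.ne_of_mem_erase hj) (MvPolynomial.X_injective h).symm
  obtain ⟨z, hz, hzQ⟩ : ∃ z ∈ Set.pi Set.univ (fun _ : Fin (n + 1) =>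
      Set.range (algebraMap k F)), MvPolynomial.aeval z Q ≠ 0 := by
    by_contra hcon
    push Not at hcon
    apply hQ0
    refine MvPolynomial.funext_set (fun _ : Fin (n + 1) => Set.range (algebraMap k F))
      (fun o => Set.infinite_range_of_injective (algebraMap k F).injective) fun z hz => ?_
    rw [map_zero]
    exact (RingHom.congr_fun (MvPolynomial.coe_aeval_eq_eval z) Q).symm.trans (hcon z hz)
  have hc : ∀ j, ∃ c : k, algebraMap k F c = z j := fun j => hz j (Set.mem_univ _)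
  choose c hc using hc
  rw [hQ, map_mul, map_mul, map_prod, map_prod] at hzQ
  have e1 := left_ne_zero_of_mul (left_ne_zero_of_mul hzQ)
  have e2 := Finset.prod_ne_zero_iff.1 (right_ne_zero_of_mul (left_ne_zero_of_mul hzQ))
  have e3 := Finset.prod_ne_zero_iff.1 (right_ne_zero_of_mul hzQ)
  have hcn : ∀ j, c j ≠ 0 := by
    intro j h
    apply e2 j (Finset.mem_univ _)
    rw [MvPolynomial.aeval_X, ← hc, h, map_zero]
  refine ⟨c 0, fun j => c j.succ, ⟨hd, hs, hcn 0, fun j => hcn _, fun i j hij => ?_⟩, ?_⟩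
  · by_contra hne
    have e4 := e3 i.succ (Finset.mem_univ _)
    rw [map_prod] at e4
    have e5 := Finset.prod_ne_zero_iff.1 e4 j.succ (Finset.mem_erase.2
      ⟨fun h => hne (Fin.succ_injective _ h).symm, Finset.mem_univ _⟩)
    apply e5
    rw [map_sub, MvPolynomial.aeval_X, MvPolynomial.aeval_X, ← hc, ← hc]
    have hij' : c i.succ = c j.succ := hij
    rw [hij', sub_self]
  · rw [hΦe] at e1
    unfold xF
    simp only [← hc] at e1
    exact e1

/-- **The coefficient is optimal.** -/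
theorem opt {u v : Fin q → k} (hq : 2 ≤ q) (hn : 1 ≤ n)
    (huv : ∀ i j, i ≠ j → u i * v j ≠ u j * v i) {G : MvPolynomial (Fin (n + 1)) F}
    (hG : G ≠ 0) {κ : ℝ} (hκ : (q : ℝ) - 2 < κ) (C : ℝ) :
    ∃ (x : Fin (n + 1) → F) (T0 : Finset (Place k F)), MvPolynomial.aeval x G ≠ 0 ∧
      (∀ i, vl (u i) (v i) x ≠ 0) ∧ (∀ P ∉ T0, (zst P x).ncard = n) ∧
      (∀ i, {P : Place k F | i ∈ mt u v P x}.Finite) ∧
      ((∑ i, ({P : Place k F | i ∈ mt u v P x}.ncard : ℤ) + n * T0.card : ℤ) : ℝ) + C <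
        κ * (pht k x : ℝ) := by
  obtain ⟨t, ht⟩ := IsFF.exists_transcendental (k := k) (K := F)
  have ht0 : t ≠ 0 := by
    rintro rfl
    exact ht isAlgebraic_zero
  have hht : 0 < hgt k t := by
    by_contra hcon
    push Not at hcon
    obtain ⟨c, rfl⟩ := Pool.Agent.W603.LV.const_of_hgt hcon
    exact ht (isAlgebraic_algebraMap c)
  obtain ⟨T0, hT0⟩ := exists_supp (k := k) (Finset.univ : Finset (Fin 1)) ![t]
  have hT0' : ∀ P : Place k F, P.ord t ≠ 0 → P ∈ T0 := fun P => hT0 0 (Finset.mem_univ _) P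
  have hA : 0 < (κ - (q - 2)) * n := by
    have : (0 : ℝ) < n := by exact_mod_cast hn
    exact mul_pos (by linarith) this
  obtain ⟨m, hm⟩ := exists_nat_gt (((n + q) * T0.card + C) / ((κ - (q - 2)) * n))
  rw [div_lt_iff₀ hA] at hm
  obtain ⟨s, hs⟩ : ∃ s, s = t ^ (m + 1) := ⟨_, rfl⟩
  have hhs : hgt k s = (m + 1 : ℕ) * hgt k t := by
    rw [hs, hgt_pow ht0]
  have hsc : ∀ b : k, s ≠ algebraMap k F b := by
    rintro b rfl
    rw [hgt_algebraic (isAlgebraic_algebraMap b)] at hhs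
    have : (0 : ℤ) < (m + 1 : ℕ) * hgt k t := mul_pos (by positivity) hht
    omega
  have hsT : ∀ P : Place k F, P.ord s ≠ 0 → P ∈ T0 := by
    intro P hP
    apply hT0'
    intro h
    apply hP
    rw [hs, P.ord_pow, h, mul_zero]
  obtain ⟨i0, hi0⟩ : ∃ i : Fin q, (i : ℕ) = 0 := ⟨⟨0, by omega⟩, rfl⟩
  obtain ⟨i1, hi1⟩ : ∃ i : Fin q, (i : ℕ) = 1 := ⟨⟨1, by omega⟩, rfl⟩
  have hi : i0 ≠ i1 := by
    rintro rfl
    omega
  have hd : u i0 * v i1 - u i1 * v i0 ≠ 0 := sub_ne_zero.2 (huv i0 i1 hi)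
  obtain ⟨c0, c, hD, hGx⟩ := exists_c (n := n) hd hsc hG
  obtain ⟨h1, h2, h3, h4⟩ := hD.total hi huv T0 hsT
  refine ⟨_, T0, hGx, h1, h2, h3, ?_⟩
  have h5 := hD.pht_ge
  have h4' : ((∑ i, ({P : Place k F | i ∈ mt u v P
      (xF n (u i0) (v i0) (u i1) (v i1) s c0 c)}.ncard : ℤ) : ℤ)
      : ℝ) ≤ ((q * T0.card + (q - 2) * n * hgt k s : ℤ) : ℝ) := by exact_mod_cast h4
  have h5' : ((n * hgt k s : ℤ) : ℝ) ≤ (pht k (xF n (u i0) (v i0) (u i1) (v i1) s c0 c) : ℝ) := by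
    exact_mod_cast h5
  push_cast at h4' h5' ⊢
  have hκ0 : 0 < κ := by
    have : (2 : ℝ) ≤ q := by exact_mod_cast hq
    linarith
  have h6 : κ * (n * (hgt k s : ℝ)) ≤
      κ * (pht k (xF n (u i0) (v i0) (u i1) (v i1) s c0 c) : ℝ) :=
    mul_le_mul_of_nonneg_left h5' hκ0.le
  have h7 : (m : ℝ) ≤ (hgt k s : ℝ) := by
    have h8 : (m : ℤ) ≤ hgt k s := by
      rw [hhs]
      push_cast
      nlinarith
    exact_mod_cast h8
  have h8 : (m : ℝ) * ((κ - (q - 2)) * n) ≤ (hgt k s : ℝ) * ((κ - (q - 2)) * n) :=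
    mul_le_mul_of_nonneg_right h7 hA.le
  refine lt_of_lt_of_le ?_ h6
  nlinarith

end Pool.Agent.H910.Ff
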