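import Pool.Agent.H910.Ff.Red
import Pool.Graph.R_pool_sql_team_seeded_1acbe0a2.Y216.TrC

/-!
Products of linear forms.
-/

set_option autoImplicit false
set_option linter.unusedSectionVars false

open Polynomial

namespace Pool.Agent.H910.Ff

open Pool.Agent.Y216

section ring

variable {R S : Type*} [CommRing R] [CommRing S] {n : ℕ}

/-- coefficients of the product with the linear form `α T - β S` -/
def mulL (α β : R) (g : Fin (n + 1) → R) : Fin (n + 2) → R := fun l =>
  α * Fin.cases (motive := fun _ => R) 0 g l - β * Fin.lastCases (motive := fun _ => R) 0 g l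

theorem bev_mulL (a b α β : R) (g : Fin (n + 1) → R) :
    bev a b (mulL α β g) = (α * b - β * a) * bev a b g := by
  have h1 : bev a b (mulL α β g) =
      α * bev a b (fun l : Fin (n + 2) => Fin.cases (motive := fun _ => R) 0 g l) -
        β * bev a b (fun l : Fin (n + 2) => Fin.lastCases (motive := fun _ => R) 0 g l) := by
    unfold bev
    rw [Finset.mul_sum, Finset.mul_sum, ← Finset.sum_sub_distrib]
    refine Finset.sum_congr rfl fun l _ => ?_
    unfold mulL
    ring
  have h2 : bev a b (fun l : Fin (n + 2) => Fin.cases (motive := fun _ => R) 0 g l) =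
      b * bev a b g := by
    unfold bev
    rw [Fin.sum_univ_succ, Finset.mul_sum]
    simp only [Fin.cases_zero, mul_zero, zero_add, Fin.cases_succ, Fin.val_succ]
    refine Finset.sum_congr rfl fun j _ => ?_
    rw [Nat.add_sub_add_right]
    ring
  have h3 : bev a b (fun l : Fin (n + 2) => Fin.lastCases (motive := fun _ => R) 0 g l) =
      a * bev a b g := by
    unfold bev
    rw [Fin.sum_univ_castSucc, Finset.mul_sum]
    simp only [Fin.lastCases_last, mul_zero, add_zero, Fin.lastCases_castSucc, Fin.val_castSucc]
    refine Finset.sum_congr rfl fun j _ => ?_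
    have h4 : n + 1 - (j : ℕ) = (n - j) + 1 := by
      have := j.2
      omega
    rw [h4]
    ring
  rw [h1, h2, h3]
  ring

theorem map_mulL (φ : R →+* S) (α β : R) (g : Fin (n + 1) → R) (l : Fin (n + 2)) :
    φ (mulL α β g l) = mulL (φ α) (φ β) (fun l => φ (g l)) l := by
  unfold mulL
  rw [map_sub, map_mul, map_mul]
  congr 1
  · congr 1
    refine Fin.cases ?_ (fun j => ?_) l
    · simp
    · simp
  · congr 1
    refine Fin.lastCases ?_ (fun j => ?_) l
    · simp
    · simp

/-- a product of linear forms -/
def prodF : (n : ℕ) → R → (Fin n → R) → (Fin n → R) → Fin (n + 1) → R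
  | 0, c, _, _ => fun _ => c
  | n + 1, c, α, β => mulL (α 0) (β 0) (prodF n c (fun j => α j.succ) fun j => β j.succ)

theorem bev_prodF (a b : R) (n : ℕ) (c : R) (α β : Fin n → R) :
    bev a b (prodF n c α β) = c * ∏ j, (α j * b - β j * a) := by
  induction n with
  | zero =>
    unfold bev prodF
    simp
  | succ n ih =>
    change bev a b (mulL _ _ _) = _
    rw [bev_mulL, ih, Fin.prod_univ_succ]
    ring

theorem map_prodF (φ : R →+* S) (n : ℕ) (c : R) (α β : Fin n → R) (l : Fin (n + 1)) :
    φ (prodF n c α β l) = prodF n (φ c) (fun j => φ (α j)) (fun j => φ (β j)) l := by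
  induction n with
  | zero => rfl
  | succ n ih =>
    change φ (mulL _ _ _ l) = mulL _ _ _ l
    rw [map_mulL]
    congr 1
    funext l
    exact ih _ _ l

theorem mulL_smul (r α β : R) (g : Fin (n + 1) → R) :
    mulL (r * α) (r * β) g = mulL α β fun l => r * g l := by
  funext l
  unfold mulL
  refine Fin.cases ?_ (fun j => ?_) l
  · simp only [Fin.cases_zero]
    have h : ∀ f : Fin (n + 1) → R,
        Fin.lastCases (motive := fun _ => R) 0 f (0 : Fin (n + 2)) = f 0 := fun f =>
      Fin.lastCases_castSucc (motive := fun _ => R) (0 : Fin (n + 1))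
    rw [h, h]
    ring
  · simp only [Fin.cases_succ]
    refine Fin.lastCases ?_ (fun j => ?_) j
    · have h : ∀ f : Fin (n + 1) → R,
          Fin.lastCases (motive := fun _ => R) 0 f (Fin.last n).succ = 0 := fun f => by
        rw [Fin.succ_last]
        exact Fin.lastCases_last
      rw [h, h]
      ring
    · have h : ∀ f : Fin (n + 1) → R,
          Fin.lastCases (motive := fun _ => R) 0 f j.castSucc.succ = f j.succ := fun f => by
        rw [Fin.succ_castSucc]
        exact Fin.lastCases_castSucc _
      rw [h, h]
      ring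

end ring

section field

variable {K : Type*} [Field K] [IsAlgClosed K]

/-- Forms over an algebraically closed field are products of linear forms. -/
theorem exists_mulL {n : ℕ} (z : Fin (n + 2) → K) : ∃ (α β : K) (g : Fin (n + 1) → K),
    z = mulL α β g := by
  by_cases hz : z (Fin.last (n + 1)) = 0
  · refine ⟨0, -1, fun j => z j.castSucc, ?_⟩
    funext l
    unfold mulL
    refine Fin.lastCases ?_ (fun j => ?_) l
    · rw [Fin.lastCases_last, hz]
      ring
    · rw [Fin.lastCases_castSucc]
      ring
  · have h1 : (pol z).degree ≠ 0 := by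
      have h2 : pol z ≠ 0 := by
        intro h
        apply hz
        rw [← coeff_pol z, h, coeff_zero]
      have h3 : n + 1 ≤ (pol z).natDegree := by
        apply le_natDegree_of_ne_zero
        have := coeff_pol z (Fin.last (n + 1))
        rw [Fin.val_last] at this
        rwa [this]
      rw [degree_eq_natDegree h2]
      have h4 : (pol z).natDegree ≠ 0 := by omega
      exact_mod_cast h4
    obtain ⟨ρ, hρ⟩ := IsAlgClosed.exists_root _ h1
    obtain ⟨g, hg⟩ := exists_mulLin (dvd_iff_isRoot.2 hρ)
    refine ⟨1, ρ, g, ?_⟩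
    rw [hg]
    funext l
    unfold mulLin mulL
    rw [one_mul]

theorem exists_prodF {U V U' V' : K} (hΔ : U * V' - U' * V ≠ 0) (n : ℕ) (z : Fin (n + 1) → K)
    (hz : bev U' V' z ≠ 0) : ∃ (c : K) (r : Fin n → K),
    z = prodF n c (fun j => U - r j * U') (fun j => V - r j * V') := by
  induction n with
  | zero =>
    refine ⟨z 0, fun _ => 0, ?_⟩
    funext j
    rw [Fin.fin_one_eq_zero j]
    rfl
  | succ n ih =>
    obtain ⟨α, β, g, rfl⟩ := exists_mulL z
    rw [bev_mulL] at hz
    have h1 := left_ne_zero_of_mul hz
    have h2 := right_ne_zero_of_mul hz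
    obtain ⟨lam, hlam⟩ : ∃ lam, lam = (α * V' - β * U') / (U * V' - U' * V) := ⟨_, rfl⟩
    have hlam0 : lam ≠ 0 := by
      rw [hlam]
      exact div_ne_zero h1 hΔ
    obtain ⟨r0, hr0⟩ : ∃ r0, r0 = -(U * β - V * α) / (lam * (U * V' - U' * V)) := ⟨_, rfl⟩
    have e0 : lam * (U * V' - U' * V) = α * V' - β * U' := by
      rw [hlam, div_mul_cancel₀ _ hΔ]
    have e1 : lam * r0 * (U * V' - U' * V) = -(U * β - V * α) := by
      have e : lam * r0 * (U * V' - U' * V) = r0 * (lam * (U * V' - U' * V)) := by ring
      rw [e, hr0, div_mul_cancel₀ _ (mul_ne_zero hlam0 hΔ)]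
    have e2 : α = lam * (U - r0 * U') := by
      apply mul_right_cancel₀ hΔ
      linear_combination -U * e0 + U' * e1
    have e3 : β = lam * (V - r0 * V') := by
      apply mul_right_cancel₀ hΔ
      linear_combination -V * e0 + V' * e1
    have h3 : bev U' V' (fun l => lam * g l) ≠ 0 := by
      have h4 : bev U' V' (fun l => lam * g l) = lam * bev U' V' g := by
        unfold bev
        rw [Finset.mul_sum]
        exact Finset.sum_congr rfl fun l _ => by ring
      rw [h4]
      exact mul_ne_zero hlam0 h2
    obtain ⟨c, r, hcr⟩ := ih _ h3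
    refine ⟨c, Fin.cons r0 r, ?_⟩
    rw [e2, e3, mulL_smul, hcr]
    rfl

end field

section dense

variable {F : Type} [Field F] [Infinite F] {n : ℕ}

/-- The products of linear forms with roots proportional to `s` are dense. -/
theorem dense_prodF {U V U' V' s : F} (hΔ : U * V' - U' * V ≠ 0) (hs : s ≠ 0)
    (hUV : U' ≠ 0 ∨ V' ≠ 0) {G : MvPolynomial (Fin (n + 1)) F} (hG : G ≠ 0) :
    ∃ Φ : MvPolynomial (Fin (n + 1)) F, Φ ≠ 0 ∧ ∀ c : Fin (n + 1) → F,
      MvPolynomial.aeval c Φ = MvPolynomial.aeval (prodF n (c 0)
        (fun j => U - c j.succ * s * U') (fun j => V - c j.succ * s * V')) G := by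
  obtain ⟨Y, hY⟩ : ∃ Y : Fin (n + 1) → MvPolynomial (Fin (n + 1)) F, Y = prodF n
      (MvPolynomial.X 0)
      (fun j : Fin n => MvPolynomial.C U - MvPolynomial.X j.succ * MvPolynomial.C s *
        MvPolynomial.C U')
      (fun j : Fin n => MvPolynomial.C V - MvPolynomial.X j.succ * MvPolynomial.C s *
        MvPolynomial.C V') := ⟨_, rfl⟩
  have hev : ∀ (E : Type) [Field E] [Algebra F E] (c : Fin (n + 1) → E),
      MvPolynomial.aeval c (MvPolynomial.aeval Y G) = MvPolynomial.aeval (prodF n (c 0)
        (fun j => algebraMap F E U - c j.succ * algebraMap F E s * algebraMap F E U')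
        (fun j => algebraMap F E V - c j.succ * algebraMap F E s * algebraMap F E V')) G := by
    intro E _ _ c
    have h1 : MvPolynomial.aeval c (MvPolynomial.aeval Y G) =
        MvPolynomial.aeval (fun j => MvPolynomial.aeval c (Y j)) G := by
      rw [← MvPolynomial.comp_aeval_apply]
    rw [h1]
    congr 2
    funext j
    rw [hY]
    refine (map_prodF (MvPolynomial.aeval c : MvPolynomial (Fin (n + 1)) F →ₐ[F] E).toRingHom
      n _ _ _ j).trans ?_
    congr 1
    · exact MvPolynomial.aeval_X c 0
    · funext j
      simp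
    · funext j
      simp
  refine ⟨MvPolynomial.aeval Y G, fun h => ?_, fun c => hev F c⟩
  -- the closure
  let E := AlgebraicClosure F
  have hinj : Function.Injective (algebraMap F E) := (algebraMap F E).injective
  have hs' : algebraMap F E s ≠ 0 := (_root_.map_ne_zero _).2 hs
  have hΔ' : algebraMap F E U * algebraMap F E V' - algebraMap F E U' * algebraMap F E V ≠ 0 := by
    rw [← map_mul, ← map_mul, ← map_sub]
    exact (_root_.map_ne_zero _).2 hΔ
  have h1 : ∀ z : Fin (n + 1) → E, bev (algebraMap F E U') (algebraMap F E V') z ≠ 0 →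
      MvPolynomial.aeval z G = 0 := by
    intro z hz
    obtain ⟨c, r, hcr⟩ := exists_prodF hΔ' n z hz
    have h2 := hev E (Fin.cons c fun j => r j / algebraMap F E s)
    rw [h, map_zero] at h2
    rw [h2, hcr]
    congr 2
    · simp only [Fin.cons_succ]
      have h3 : ∀ j, r j / algebraMap F E s * algebraMap F E s = r j := fun j =>
        div_mul_cancel₀ _ hs'
      simp only [h3, Fin.cons_zero]
  have h2 : (MvPolynomial.map (algebraMap F E) G) *
      bev (MvPolynomial.C (algebraMap F E U')) (MvPolynomial.C (algebraMap F E V'))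
        (fun j : Fin (n + 1) => (MvPolynomial.X j : MvPolynomial (Fin (n + 1)) E)) = 0 := by
    have : Infinite E := Infinite.of_injective _ hinj
    refine MvPolynomial.funext fun z => ?_
    rw [map_mul, map_zero]
    have h3 : MvPolynomial.eval z (bev (MvPolynomial.C (algebraMap F E U'))
        (MvPolynomial.C (algebraMap F E V'))
        (fun j : Fin (n + 1) => (MvPolynomial.X j : MvPolynomial (Fin (n + 1)) E))) =
        bev (algebraMap F E U') (algebraMap F E V') z := by
      rw [map_bev]
      simp only [MvPolynomial.eval_C, MvPolynomial.eval_X]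
    rw [h3]
    by_cases h4 : bev (algebraMap F E U') (algebraMap F E V') z = 0
    · rw [h4, mul_zero]
    · have h5 : MvPolynomial.eval z (MvPolynomial.map (algebraMap F E) G) =
          MvPolynomial.aeval z G := by
        rw [MvPolynomial.eval_map, MvPolynomial.aeval_def]
      rw [h5, h1 z h4, zero_mul]
  rcases mul_eq_zero.1 h2 with h3 | h3
  · apply hG
    apply MvPolynomial.map_injective _ hinj
    rw [h3, map_zero]
  · have h4 : ∀ z : Fin (n + 1) → E, bev (algebraMap F E U') (algebraMap F E V') z = 0 := by
      intro z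
      have h5 := congrArg (MvPolynomial.eval z) h3
      rw [map_bev, map_zero] at h5
      simpa only [MvPolynomial.eval_C, MvPolynomial.eval_X] using h5
    have h5 := h4 fun j => if j = 0 then 1 else 0
    have h6 := h4 fun j => if j = Fin.last n then 1 else 0
    unfold bev at h5 h6
    simp only [mul_ite, mul_one, mul_zero, Finset.sum_ite_eq', Finset.mem_univ, if_true,
      Fin.val_zero, pow_zero, Fin.val_last, Nat.sub_self, one_mul, Nat.sub_zero] at h5 h6
    rcases hUV with h7 | h7
    · exact pow_ne_zero _ ((_root_.map_ne_zero _).2 h7) h5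
    · exact pow_ne_zero _ ((_root_.map_ne_zero _).2 h7) h6

end dense

end Pool.Agent.H910.Ff
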