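import Pool.Agent.H910.Ff.OptA
import Pool.Agent.H910.Ff.Fam

/-!
Binary forms for which the inequality is almost an equality.
-/

set_option autoImplicit false
set_option linter.unusedSectionVars false

open FF Polynomial Pool.Agent.W603.LV Pool.Agent.W603.PV

namespace Pool.Agent.H910.Ff

open Pool.Agent.Y216

section loc

variable {k : Type} [Field k] {F : Type} [Field F] [Algebra k F] {n q : ℕ}

theorem vl_eq_bev (a b : k) (x : Fin (n + 1) → F) :
    vl a b x = bev (algebraMap k F a) (algebraMap k F b) x := by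
  unfold vl bev
  exact Finset.sum_congr rfl fun l _ => by rw [map_mul, map_pow, map_pow]

/-- the form with roots proportional to `s` in suitable coordinates -/
def xF (n : ℕ) (U V U' V' : k) (s : F) (c0 : k) (c : Fin n → k) : Fin (n + 1) → F :=
  prodF n (algebraMap k F c0)
    (fun j => algebraMap k F U - algebraMap k F (c j) * s * algebraMap k F U')
    (fun j => algebraMap k F V - algebraMap k F (c j) * s * algebraMap k F V')

variable {U V U' V' : k} {s : F} {c0 : k} {c : Fin n → k}

theorem vl_xF (a b : k) : vl a b (xF n U V U' V' s c0 c) = algebraMap k F c0 *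
    ∏ j, (algebraMap k F (U * b - V * a) - algebraMap k F (c j * (U' * b - V' * a)) * s) := by
  rw [vl_eq_bev]
  unfold xF
  rw [bev_prodF]
  congr 1
  refine Finset.prod_congr rfl fun j _ => ?_
  simp only [map_sub, map_mul]
  ring

theorem ge_mulL {P : Place k F} {α β : F} (hα : Ge P 0 α) (hβ : Ge P 0 β) {g : Fin (n + 1) → F}
    (h : ∀ j, Ge P 0 (g j)) (l : Fin (n + 2)) : Ge P 0 (mulL α β g l) := by
  unfold mulL
  refine Ge.sub ?_ ?_
  · refine Fin.cases ?_ (fun j => ?_) l
    · rw [Fin.cases_zero, mul_zero]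
      exact Ge.zero
    · rw [Fin.cases_succ]
      have := hα.mul (h j)
      rwa [zero_add] at this
  · refine Fin.lastCases ?_ (fun j => ?_) l
    · rw [Fin.lastCases_last, mul_zero]
      exact Ge.zero
    · rw [Fin.lastCases_castSucc]
      have := hβ.mul (h j)
      rwa [zero_add] at this

theorem ge_prodF {P : Place k F} {n : ℕ} {c : F} {α β : Fin n → F} (hc : Ge P 0 c)
    (hα : ∀ j, Ge P 0 (α j)) (hβ : ∀ j, Ge P 0 (β j)) (l : Fin (n + 1)) :
    Ge P 0 (prodF n c α β l) := by
  induction n with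
  | zero => exact hc
  | succ n ih =>
    exact ge_mulL (hα 0) (hβ 0) (fun j => ih (fun j => hα j.succ) (fun j => hβ j.succ) j) l

theorem ge_lin {P : Place k F} (hs : Ge P 0 s) (p p' : k) :
    Ge P 0 (algebraMap k F p - algebraMap k F p' * s) := by
  have h1 := (Ge.const (P := P) p').mul hs
  rw [zero_add] at h1
  exact (Ge.const (P := P) p).sub h1

theorem ge_xF {P : Place k F} (hs : Ge P 0 s) (l : Fin (n + 1)) :
    Ge P 0 (xF n U V U' V' s c0 c l) := by
  unfold xF
  refine ge_prodF (Ge.const _) (fun j => ?_) (fun j => ?_) l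
  · have := ge_lin hs U (c j * U')
    rw [map_mul] at this
    convert this using 1
    ring
  · have := ge_lin hs V (c j * V')
    rw [map_mul] at this
    convert this using 1
    ring

/-- the hypotheses -/
structure Dat (U V U' V' : k) (s : F) (c0 : k) (c : Fin n → k) : Prop where
  d : U * V' - U' * V ≠ 0
  tr : ∀ b : k, s ≠ algebraMap k F b
  cz : c0 ≠ 0
  cn : ∀ j, c j ≠ 0
  inj : Function.Injective c

theorem Dat.s0 (h : Dat U V U' V' s c0 c) : s ≠ 0 := by
  have := h.tr 0
  rwa [map_zero] at this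

theorem lin_ne (hs : ∀ b : k, s ≠ algebraMap k F b) {p p' : k} (hp : p ≠ 0 ∨ p' ≠ 0) :
    algebraMap k F p - algebraMap k F p' * s ≠ 0 := by
  intro h
  by_cases hp' : p' = 0
  · rw [hp', map_zero, zero_mul, sub_zero, map_eq_zero] at h
    exact hp.elim (fun h' => h' h) (fun h' => h' hp')
  · apply hs (p / p')
    rw [map_div₀, eq_div_iff ((_root_.map_ne_zero _).2 hp')]
    linear_combination -h

theorem Dat.val0 (h : Dat U V U' V' s c0 c) : vl U V (xF n U V U' V' s c0 c) =
    algebraMap k F (c0 * ∏ j, (c j * (U * V' - U' * V))) * s ^ n := by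
  rw [vl_xF, map_mul, map_prod, mul_assoc]
  congr 1
  have : s ^ n = ∏ _j : Fin n, s := by rw [Finset.prod_const, Finset.card_univ, Fintype.card_fin]
  rw [this, ← Finset.prod_mul_distrib]
  refine Finset.prod_congr rfl fun j _ => ?_
  have e1 : U * V - V * U = 0 := by ring
  have e2 : c j * (U' * V - V' * U) = -(c j * (U * V' - U' * V)) := by ring
  rw [e1, e2, map_zero, map_neg]
  ring

theorem Dat.val1 (h : Dat U V U' V' s c0 c) : vl U' V' (xF n U V U' V' s c0 c) =
    algebraMap k F (c0 * (U * V' - U' * V) ^ n) := by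
  rw [vl_xF, map_mul]
  congr 1
  have e1 : ∀ j, (algebraMap k F (U * V' - V * U') - algebraMap k F (c j * (U' * V' - V' * U')) * s)
      = algebraMap k F (U * V' - U' * V) := by
    intro j
    have e2 : c j * (U' * V' - V' * U') = 0 := by ring
    rw [e2, map_zero, zero_mul, sub_zero]
    congr 1
    ring
  rw [Finset.prod_congr rfl fun j _ => e1 j, Finset.prod_const, Finset.card_univ,
    Fintype.card_fin, map_pow]

theorem Dat.pord_le (h : Dat U V U' V' s c0 c) [CharZero k] [IsAlgClosed k] [IsFF k F]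
    (P : Place k F) :
    pord P (xF n U V U' V' s c0 c) ≤ 0 ∧ pord P (xF n U V U' V' s c0 c) ≤ n * P.ord s := by
  have hK1 : c0 * (U * V' - U' * V) ^ n ≠ 0 := mul_ne_zero h.cz (pow_ne_zero _ h.d)
  have hK0 : c0 * ∏ j, (c j * (U * V' - U' * V)) ≠ 0 :=
    mul_ne_zero h.cz (Finset.prod_ne_zero_iff.2 fun j _ => mul_ne_zero (h.cn j) h.d)
  have hle : ∀ a b : k, vl a b (xF n U V U' V' s c0 c) ≠ 0 →
      pord P (xF n U V U' V' s c0 c) ≤ P.ord (vl a b (xF n U V U' V' s c0 c)) := fun a b hab =>
    pord_le_lv P (rnc n (fun _ : Fin 1 => a) (fun _ => b) 0) hab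
  constructor
  · have h1 := hle U' V' (by
      rw [h.val1]
      exact (_root_.map_ne_zero _).2 hK1)
    rwa [h.val1, P.ord_const hK1] at h1
  · have h1 := hle U V (by
      rw [h.val0]
      exact mul_ne_zero ((_root_.map_ne_zero _).2 hK0) (pow_ne_zero _ h.s0))
    rwa [h.val0, P.ord_mul ((_root_.map_ne_zero _).2 hK0) (pow_ne_zero _ h.s0), P.ord_const hK0,
      P.ord_pow, zero_add] at h1

theorem Dat.ne (h : Dat U V U' V' s c0 c) : ∃ j, xF n U V U' V' s c0 c j ≠ 0 := by
  by_contra hcon
  push Not at hcon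
  have h1 := h.val1
  have hK1 : c0 * (U * V' - U' * V) ^ n ≠ 0 := mul_ne_zero h.cz (pow_ne_zero _ h.d)
  have h2 : vl U' V' (xF n U V U' V' s c0 c) = 0 :=
    Finset.sum_eq_zero fun j _ => by rw [hcon j, mul_zero]
  rw [h2] at h1
  exact (_root_.map_ne_zero (algebraMap k F)).2 hK1 h1.symm

theorem Dat.pord_eq (h : Dat U V U' V' s c0 c) [CharZero k] [IsAlgClosed k] [IsFF k F]
    {P : Place k F} (hP : P.ord s = 0) : pord P (xF n U V U' V' s c0 c) = 0 := by
  refine le_antisymm (h.pord_le P).1 ?_
  obtain ⟨j, hj, hjo⟩ := exists_pord P h.ne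
  rw [← hjo]
  exact one_le_of_ge hj (ge_xF (Or.inr hP.ge) j)

/-- the point of the projective line -/
noncomputable def prj (a b : k) : Option k := by
  classical exact if a = 0 then none else some (b / a)

theorem vl_prj {a b : k} (hab : a ≠ 0 ∨ b ≠ 0) (x : Fin (n + 1) → F) : ∃ r : k, r ≠ 0 ∧
    vl a b x = algebraMap k F r * vl (pt (prj a b)).1 (pt (prj a b)).2 x := by
  classical
  by_cases ha : a = 0
  · have hb : b ≠ 0 := hab.resolve_left fun h => h ha
    have h1 : prj a b = none := if_pos ha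
    refine ⟨b ^ n, pow_ne_zero _ hb, ?_⟩
    rw [h1, vl_none, vl_inf ha, map_pow]
  · have h1 : prj a b = some (b / a) := if_neg ha
    refine ⟨a ^ n, pow_ne_zero _ ha, ?_⟩
    rw [h1, vl_some, vl_fin ha, map_pow]

theorem prj_inj {a b a' b' : k} (hab : a ≠ 0 ∨ b ≠ 0) (hab' : a' ≠ 0 ∨ b' ≠ 0)
    (h : prj a b = prj a' b') : a * b' = a' * b := by
  classical
  by_cases ha : a = 0
  · have h1 : prj a b = none := if_pos ha
    by_cases ha' : a' = 0
    · rw [ha, ha', zero_mul, zero_mul]
    · have h2 : prj a' b' = some (b' / a') := if_neg ha'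
      rw [h1, h2] at h
      exact absurd h (by simp)
  · have h1 : prj a b = some (b / a) := if_neg ha
    by_cases ha' : a' = 0
    · have h2 : prj a' b' = none := if_pos ha'
      rw [h1, h2] at h
      exact absurd h (by simp)
    · have h2 : prj a' b' = some (b' / a') := if_neg ha'
      rw [h1, h2, Option.some_inj, div_eq_div_iff ha ha'] at h
      linear_combination -h

theorem Dat.zst_eq (h : Dat U V U' V' s c0 c) [CharZero k] [IsAlgClosed k] [IsFF k F]
    {P : Place k F} (hP : P.ord s = 0) : (zst P (xF n U V U' V' s c0 c)).ncard = n := by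
  refine le_antisymm (zst_le P h.ne) ?_
  obtain ⟨s0, hs0⟩ := Pool.Agent.W603.LV.exists_const P (Or.inr hP.ge : Ge P 0 s)
  have hs1 := hs0.resolve_left (sub_ne_zero.2 (h.tr s0))
  have hs00 : s0 ≠ 0 := by
    rintro rfl
    rw [map_zero, sub_zero] at hs1
    omega
  have hpair : ∀ j, U - c j * s0 * U' ≠ 0 ∨ V - c j * s0 * V' ≠ 0 := by
    intro j
    by_contra hcon
    push Not at hcon
    apply h.d
    linear_combination V' * hcon.1 - U' * hcon.2
  have hmem : ∀ j, prj (U - c j * s0 * U') (V - c j * s0 * V') ∈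
      zst P (xF n U V U' V' s c0 c) := by
    intro j
    obtain ⟨r, hr0, hr⟩ := vl_prj (hpair j) (xF n U V U' V' s c0 c)
    have h1 : Ge P 1 (vl (U - c j * s0 * U') (V - c j * s0 * V') (xF n U V U' V' s c0 c)) := by
      rw [vl_xF, ← Finset.mul_prod_erase _ _ (Finset.mem_univ j)]
      have h2 : Ge P 1 (algebraMap k F (U * (V - c j * s0 * V') - V * (U - c j * s0 * U')) -
          algebraMap k F (c j * (U' * (V - c j * s0 * V') - V' * (U - c j * s0 * U'))) * s) := by
        have e : algebraMap k F (U * (V - c j * s0 * V') - V * (U - c j * s0 * U')) -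
          algebraMap k F (c j * (U' * (V - c j * s0 * V') - V' * (U - c j * s0 * U'))) * s =
          algebraMap k F (c j * (U * V' - U' * V)) * (s - algebraMap k F s0) := by
          simp only [map_sub, map_mul]
          ring
        rw [e]
        have := (Ge.const (P := P) (c j * (U * V' - U' * V))).mul hs0
        rwa [zero_add] at this
      have h3 : Ge P 0 (∏ x ∈ Finset.univ.erase j,
          (algebraMap k F (U * (V - c j * s0 * V') - V * (U - c j * s0 * U')) -
          algebraMap k F (c x * (U' * (V - c j * s0 * V') - V' * (U - c j * s0 * U'))) * s)) := by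
        have := Ge.prod (P := P) (Finset.univ.erase j)
          (fun x => algebraMap k F (U * (V - c j * s0 * V') - V * (U - c j * s0 * U')) -
          algebraMap k F (c x * (U' * (V - c j * s0 * V') - V' * (U - c j * s0 * U'))) * s)
          (fun _ => 0) (fun x _ => ge_lin (Or.inr hP.ge) _ _)
        simpa using this
      have h4 := (Ge.const (P := P) c0).mul (h2.mul h3)
      rwa [zero_add, add_zero] at h4
    have h5 : ∀ w : F, Ge P 1 (algebraMap k F r * w) → w = 0 ∨ 0 < P.ord w := by
      intro w hw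
      by_cases hw0 : w = 0
      · exact Or.inl hw0
      · right
        have h6 := hw.resolve_left (mul_ne_zero ((_root_.map_ne_zero _).2 hr0) hw0)
        rw [P.ord_mul ((_root_.map_ne_zero _).2 hr0) hw0, P.ord_const hr0] at h6
        omega
    rw [hr] at h1
    have h6 := h5 _ h1
    unfold zst
    rw [Set.mem_ofPred_eq, h.pord_eq hP]
    exact h6
  have hinj : Function.Injective fun j => prj (U - c j * s0 * U') (V - c j * s0 * V') := by
    intro i j hij
    have h1 := prj_inj (hpair i) (hpair j) hij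
    apply h.inj
    have h2 : (c i - c j) * (s0 * (U * V' - U' * V)) = 0 := by
      linear_combination h1
    rw [mul_eq_zero, or_iff_left (mul_ne_zero hs00 h.d), sub_eq_zero] at h2
    exact h2
  have h1 : (Set.range fun j => prj (U - c j * s0 * U') (V - c j * s0 * V')).ncard = n := by
    rw [← Set.image_univ, Set.ncard_image_of_injective _ hinj, Set.ncard_univ, Nat.card_eq_fintype_card,
      Fintype.card_fin]
  calc n = (Set.range fun j => prj (U - c j * s0 * U') (V - c j * s0 * V')).ncard := h1.symm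
    _ ≤ _ := Set.ncard_le_ncard (by
      rintro _ ⟨j, rfl⟩
      exact hmem j) (zst_finite P h.ne)

end loc

section cnt

variable {k : Type} [Field k] [CharZero k] [IsAlgClosed k] {F : Type} [Field F] [Algebra k F]
  [IsFF k F] {n q : ℕ}

/-- the zeros of a linear polynomial of `s` -/
theorem zeros_lin {s : F} (hs : ∀ b : k, s ≠ algebraMap k F b) {p p' : k} (hp : p ≠ 0)
    (hp' : p' ≠ 0) : {P : Place k F | 0 < P.ord (algebraMap k F p - algebraMap k F p' * s)}.Finite ∧
      ({P : Place k F | 0 < P.ord (algebraMap k F p - algebraMap k F p' * s)}.ncard : ℤ) ≤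
        hgt k s := by
  classical
  obtain ⟨z, hz⟩ : ∃ z, z = algebraMap k F p - algebraMap k F p' * s := ⟨_, rfl⟩
  have hz0 : z ≠ 0 := by
    rw [hz]
    exact lin_ne hs (Or.inl hp)
  have hs0 : s ≠ 0 := by
    have := hs 0
    rwa [map_zero] at this
  rw [← hz]
  obtain ⟨T, hT⟩ := exists_supp (k := k) (Finset.univ : Finset (Fin 2)) ![z, s]
  have hTz : ∀ P : Place k F, P.ord z ≠ 0 → P ∈ T := fun P => hT 0 (Finset.mem_univ _) P
  have hTs : ∀ P : Place k F, P.ord s ≠ 0 → P ∈ T := fun P => hT 1 (Finset.mem_univ _) P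
  have hsub : {P : Place k F | 0 < P.ord z} ⊆ T := fun P hP => hTz P (ne_of_gt hP)
  have hfin : {P : Place k F | 0 < P.ord z}.Finite := T.finite_toSet.subset hsub
  refine ⟨hfin, ?_⟩
  have h1 : {P : Place k F | 0 < P.ord z}.ncard = (T.filter fun P => 0 < P.ord z).card := by
    rw [← Set.ncard_coe_finset]
    congr 1
    ext P
    rw [Finset.mem_coe, Finset.mem_filter]
    exact ⟨fun h => ⟨hsub h, h⟩, fun h => h.2⟩
  rw [h1, hgt_finset s T hTs, Finset.card_eq_sum_ones]
  push_cast
  have h2 : ∀ P ∈ T, max (P.ord z) 0 ≤ P.ord z + max (-P.ord s) 0 := by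
    intro P _
    by_cases hneg : P.ord s < 0
    · have h3 : P.ord z = P.ord s := by
        have h4 : P.ord (algebraMap k F p' * s) = P.ord s := by
          rw [P.ord_mul ((_root_.map_ne_zero _).2 hp') hs0, P.ord_const hp', zero_add]
        have h5 := P.ord_add_eq (f := -(algebraMap k F p' * s)) (g := algebraMap k F p)
          (neg_ne_zero.2 (mul_ne_zero ((_root_.map_ne_zero _).2 hp') hs0))
          ((_root_.map_ne_zero _).2 hp) (by rw [P.ord_neg, h4, P.ord_const hp]; exact hneg)
        rw [P.ord_neg, h4] at h5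
        rw [hz, ← h5.2]
        congr 1
        ring
      rw [h3]
      omega
    · have h3 : Ge P 0 z := by
        rw [hz]
        exact ge_lin (Or.inr (not_lt.1 hneg)) _ _
      have h4 := h3.resolve_left hz0
      omega
  have h3 := Finset.sum_le_sum h2
  rw [Finset.sum_add_distrib, sum_ord_finset z T hTz, zero_add] at h3
  refine le_trans ?_ h3
  calc ∑ P ∈ T.filter (fun P => 0 < P.ord z), (1 : ℤ)
      ≤ ∑ P ∈ T.filter (fun P => 0 < P.ord z), max (P.ord z) 0 := by
        refine Finset.sum_le_sum fun P hP => ?_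
        have := (Finset.mem_filter.1 hP).2
        omega
    _ ≤ ∑ P ∈ T, max (P.ord z) 0 :=
        Finset.sum_le_sum_of_subset_of_nonneg (Finset.filter_subset _ _) fun P _ _ =>
          le_max_right _ _

variable {U V U' V' : k} {s : F} {c0 : k} {c : Fin n → k}

theorem Dat.pht_ge (h : Dat U V U' V' s c0 c) :
    n * hgt k s ≤ pht k (xF n U V U' V' s c0 c) := by
  classical
  obtain ⟨T1, hT1⟩ := exists_supp (k := k) Finset.univ (xF n U V U' V' s c0 c)
  obtain ⟨T2, hT2⟩ := exists_supp (k := k) (Finset.univ : Finset (Fin 1)) ![s]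
  have hTs : ∀ P : Place k F, P.ord s ≠ 0 → P ∈ T1 ∪ T2 := fun P hP =>
    Finset.mem_union_right _ (hT2 0 (Finset.mem_univ _) P hP)
  have hTp : ∀ P : Place k F, pord P (xF n U V U' V' s c0 c) ≠ 0 → P ∈ T1 ∪ T2 := by
    intro P hP
    obtain ⟨j, _, hj⟩ := exists_pord P h.ne
    rw [← hj] at hP
    exact Finset.mem_union_left _ (hT1 j (Finset.mem_univ _) P hP)
  have h1 : pht k (xF n U V U' V' s c0 c) =
      - ∑ P ∈ T1 ∪ T2, pord P (xF n U V U' V' s c0 c) := by
    unfold pht
    rw [finsum_eq_sum_of_support_subset (s := T1 ∪ T2)]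
    intro P hP
    exact Finset.mem_coe.2 (hTp P hP)
  rw [h1, hgt_finset s _ hTs, Finset.mul_sum, ← Finset.sum_neg_distrib]
  refine Finset.sum_le_sum fun P _ => ?_
  obtain ⟨h2, h3⟩ := h.pord_le P
  rcases le_total 0 (P.ord s) with h4 | h4
  · rw [max_eq_right (by omega), mul_zero]
    linarith
  · rw [max_eq_left (by omega)]
    linarith

open Classical in
/-- The counting functions of the form. -/
theorem Dat.total {u v : Fin q → k} {i0 i1 : Fin q} (hi : i0 ≠ i1)
    (huv : ∀ i j, i ≠ j → u i * v j ≠ u j * v i)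
    (h : Dat (u i0) (v i0) (u i1) (v i1) s c0 c) (T0 : Finset (Place k F))
    (hT0 : ∀ P : Place k F, P.ord s ≠ 0 → P ∈ T0) :
    (∀ i, vl (u i) (v i) (xF n (u i0) (v i0) (u i1) (v i1) s c0 c) ≠ 0) ∧
    (∀ P ∉ T0, (zst P (xF n (u i0) (v i0) (u i1) (v i1) s c0 c)).ncard = n) ∧
    (∀ i, {P : Place k F | i ∈ mt u v P (xF n (u i0) (v i0) (u i1) (v i1) s c0 c)}.Finite) ∧
    ∑ i, ({P : Place k F | i ∈ mt u v P (xF n (u i0) (v i0) (u i1) (v i1) s c0 c)}.ncard : ℤ) ≤
      q * T0.card + (q - 2) * n * hgt k s := by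
  set x := xF n (u i0) (v i0) (u i1) (v i1) s c0 c with hx
  have hxne : ∃ j, x j ≠ 0 := h.ne
  have hp : ∀ i, i ≠ i0 → u i0 * v i - v i0 * u i ≠ 0 := fun i hne h' =>
    huv i0 i hne.symm (by linear_combination h')
  have hp' : ∀ i, i ≠ i1 → u i1 * v i - v i1 * u i ≠ 0 := fun i hne h' =>
    huv i1 i hne.symm (by linear_combination h')
  have hval : ∀ i, vl (u i) (v i) x ≠ 0 := by
    intro i
    rw [hx, vl_xF]
    refine mul_ne_zero ((_root_.map_ne_zero _).2 h.cz) (Finset.prod_ne_zero_iff.2 fun j _ => ?_)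
    apply lin_ne h.tr
    by_cases h1 : i = i0
    · right
      exact mul_ne_zero (h.cn j) (hp' i (h1 ▸ hi))
    · exact Or.inl (hp i h1)
  have hbad : ∀ P : Place k F, (zst P x).ncard ≠ n → P ∈ T0 := by
    intro P hP
    apply hT0
    intro h0
    exact hP (h.zst_eq h0)
  have hmt : ∀ (P : Place k F) i, i ∈ mt u v P x → P ∈ T0 ∨ (i ≠ i0 ∧ i ≠ i1 ∧ ∃ j,
      0 < P.ord (algebraMap k F (u i0 * v i - v i0 * u i) -
        algebraMap k F (c j * (u i1 * v i - v i1 * u i)) * s)) := by
    intro P i hPi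
    by_cases h0 : P.ord s = 0
    · right
      unfold mt at hPi
      rw [Finset.mem_filter] at hPi
      obtain ⟨-, h1, h2⟩ := hPi
      rw [hx, h.pord_eq h0, ← hx] at h2
      refine ⟨?_, ?_, ?_⟩
      · rintro rfl
        have hK0 : c0 * ∏ j, (c j * (u i * v i1 - u i1 * v i)) ≠ 0 :=
          mul_ne_zero h.cz (Finset.prod_ne_zero_iff.2 fun j _ => mul_ne_zero (h.cn j) h.d)
        rw [hx, h.val0, P.ord_mul ((_root_.map_ne_zero _).2 hK0) (pow_ne_zero _ h.s0),
          P.ord_const hK0, P.ord_pow, h0] at h2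
        omega
      · rintro rfl
        have hK1 : c0 * (u i0 * v i - u i * v i0) ^ n ≠ 0 :=
          mul_ne_zero h.cz (pow_ne_zero _ h.d)
        rw [hx, h.val1, P.ord_const hK1] at h2
        omega
      · by_contra hcon
        push Not at hcon
        rw [hx, vl_xF] at h1 h2
        have h3 := Finset.prod_ne_zero_iff.1 (right_ne_zero_of_mul h1)
        rw [P.ord_mul ((_root_.map_ne_zero _).2 h.cz) (right_ne_zero_of_mul h1),
          P.ord_const h.cz, zero_add,
          Pool.Agent.W602.GT.ord_prod' P _ _ h3] at h2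
        have h4 := Finset.sum_nonpos fun j (_ : j ∈ (Finset.univ : Finset (Fin n))) => hcon j
        omega
    · exact Or.inl (hT0 P h0)
  have hzf : ∀ i, i ≠ i0 → i ≠ i1 → ∀ j : Fin n,
      {P : Place k F | 0 < P.ord (algebraMap k F (u i0 * v i - v i0 * u i) -
        algebraMap k F (c j * (u i1 * v i - v i1 * u i)) * s)}.Finite ∧
      ({P : Place k F | 0 < P.ord (algebraMap k F (u i0 * v i - v i0 * u i) -
        algebraMap k F (c j * (u i1 * v i - v i1 * u i)) * s)}.ncard : ℤ) ≤ hgt k s := by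
    intro i h1 h2 j
    exact zeros_lin h.tr (hp i h1) (mul_ne_zero (h.cn j) (hp' i h2))
  have hmi : ∀ i, {P : Place k F | i ∈ mt u v P x}.Finite ∧
      ({P : Place k F | i ∈ mt u v P x}.ncard : ℤ) ≤ T0.card +
        if i ≠ i0 ∧ i ≠ i1 then n * hgt k s else 0 := by
    intro i
    by_cases h1 : i ≠ i0 ∧ i ≠ i1
    · rw [if_pos h1]
      have hsub : {P : Place k F | i ∈ mt u v P x} ⊆ (T0 : Set (Place k F)) ∪
          ⋃ j ∈ (Finset.univ : Finset (Fin n)),
            {P : Place k F | 0 < P.ord (algebraMap k F (u i0 * v i - v i0 * u i) -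
              algebraMap k F (c j * (u i1 * v i - v i1 * u i)) * s)} := by
        intro P hP
        rcases hmt P i hP with h2 | ⟨-, -, j, hj⟩
        · exact Or.inl h2
        · right
          rw [Set.mem_iUnion₂]
          exact ⟨j, Finset.mem_univ _, hj⟩
      have hfin : (⋃ j ∈ (Finset.univ : Finset (Fin n)),
            {P : Place k F | 0 < P.ord (algebraMap k F (u i0 * v i - v i0 * u i) -
              algebraMap k F (c j * (u i1 * v i - v i1 * u i)) * s)}).Finite :=
        Set.Finite.biUnion (Finset.finite_toSet _) fun j _ => (hzf i h1.1 h1.2 j).1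
      have hfin2 := T0.finite_toSet.union hfin
      refine ⟨hfin2.subset hsub, ?_⟩
      have h2 := (Set.ncard_le_ncard hsub hfin2).trans (Set.ncard_union_le _ _)
      rw [Set.ncard_coe_finset] at h2
      have h3 := Finset.set_ncard_biUnion_le (Finset.univ : Finset (Fin n)) fun j =>
        {P : Place k F | 0 < P.ord (algebraMap k F (u i0 * v i - v i0 * u i) -
              algebraMap k F (c j * (u i1 * v i - v i1 * u i)) * s)}
      have h4 := Finset.sum_le_sum fun j (_ : j ∈ (Finset.univ : Finset (Fin n))) =>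
        (hzf i h1.1 h1.2 j).2
      rw [Finset.sum_const, Finset.card_univ, Fintype.card_fin, nsmul_eq_mul] at h4
      have h5 := Int.ofNat_le.2 (h2.trans (Nat.add_le_add_left h3 _))
      rw [Nat.cast_add, Nat.cast_sum] at h5
      exact h5.trans (by linarith)
    · rw [if_neg h1, add_zero]
      have hsub : {P : Place k F | i ∈ mt u v P x} ⊆ (T0 : Set (Place k F)) := by
        intro P hP
        rcases hmt P i hP with h2 | ⟨h2, h3, -⟩
        · exact h2
        · exact absurd ⟨h2, h3⟩ h1
      refine ⟨T0.finite_toSet.subset hsub, ?_⟩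
      have h2 := Set.ncard_le_ncard hsub T0.finite_toSet
      rw [Set.ncard_coe_finset] at h2
      exact_mod_cast h2
  refine ⟨hval, fun P hP => ?_, fun i => (hmi i).1, ?_⟩
  · by_contra h
    exact hP (hbad P h)
  have h1 := Finset.sum_le_sum fun i (_ : i ∈ (Finset.univ : Finset (Fin q))) => (hmi i).2
  have h2 : ∑ i : Fin q, (if i ≠ i0 ∧ i ≠ i1 then (n : ℤ) * hgt k s else 0) =
      (q - 2) * n * hgt k s := by
    rw [← Finset.sum_filter, Finset.sum_const, nsmul_eq_mul]
    have h3 : (Finset.univ.filter fun i : Fin q => i ≠ i0 ∧ i ≠ i1) =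
        (Finset.univ.erase i0).erase i1 := by
      ext i
      simp only [Finset.mem_filter, Finset.mem_univ, true_and, Finset.mem_erase]
      tauto
    rw [h3, Finset.card_erase_of_mem (Finset.mem_erase.2 ⟨hi.symm, Finset.mem_univ _⟩),
      Finset.card_erase_of_mem (Finset.mem_univ _), Finset.card_univ, Fintype.card_fin]
    have h4 : 2 ≤ q := by
      have := i0.2
      have := i1.2
      have : (i0 : ℕ) ≠ i1 := fun h => hi (Fin.ext h)
      omega
    have h5 : ((q - 1 - 1 : ℕ) : ℤ) = q - 2 := by omega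
    rw [h5]
    ring
  rw [Finset.sum_add_distrib, h2, Finset.sum_const, Finset.card_univ, Fintype.card_fin,
    nsmul_eq_mul] at h1
  linarith

end cnt

end Pool.Agent.H910.Ff
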