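import Pool.Agent.H910.Ff.Loc
import Pool.Agent.H910.Dsc.AnD

/-!
The reduction of a binary form over a function field at a place, and its zeros.
-/

set_option autoImplicit false
set_option linter.unusedSectionVars false

open FF Polynomial Pool.Agent.W603.LV Pool.Agent.W603.PV Pool.Agent.W602.GT

namespace Pool.Agent.H910.Ff

open Pool.Agent.Y190.BV Pool.Agent.H910.Dsc Pool.Agent.Y216

section defs

variable {k L : Type} [Field k] [Field L] [Algebra k L] {n : ℕ}

/-- the value of a binary form -/
def vl (s t : k) (x : Fin (n + 1) → L) : L :=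
  ∑ l : Fin (n + 1), algebraMap k L (s ^ (n - (l : ℕ)) * t ^ (l : ℕ)) * x l

/-- the points of the projective line -/
def pt : Option k → k × k
  | none => (0, 1)
  | some c => (1, c)

/-- the zeros of the reduction -/
def zst (P : Place k L) (x : Fin (n + 1) → L) : Set (Option k) :=
  {z | vl (pt z).1 (pt z).2 x = 0 ∨ pord P x < P.ord (vl (pt z).1 (pt z).2 x)}

theorem vl_fin {u v : k} (hu : u ≠ 0) (x : Fin (n + 1) → L) :
    vl u v x = algebraMap k L u ^ n * (pol x).eval (algebraMap k L (v / u)) := by
  unfold vl pol
  rw [eval_finsetSum, Finset.mul_sum]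
  refine Finset.sum_congr rfl fun j _ => ?_
  rw [eval_mul, eval_C, eval_pow, eval_X, map_div₀, div_pow, map_mul, map_pow, map_pow]
  have hj : algebraMap k L u ^ n = algebraMap k L u ^ (n - (j : ℕ)) * algebraMap k L u ^ (j : ℕ) := by
    rw [← pow_add]
    congr 1
    have := j.2
    omega
  have hu' : algebraMap k L u ≠ 0 := (_root_.map_ne_zero _).2 hu
  rw [hj]
  field_simp

theorem vl_inf {u v : k} (hu : u = 0) (x : Fin (n + 1) → L) :
    vl u v x = algebraMap k L v ^ n * x (Fin.last n) := by
  unfold vl
  rw [Fin.sum_univ_castSucc, Finset.sum_eq_zero, zero_add]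
  · rw [Fin.val_last, Nat.sub_self, pow_zero, one_mul, map_pow]
  · intro j _
    have := j.2
    rw [hu, Fin.val_castSucc, zero_pow (by omega), zero_mul, map_zero, zero_mul]

theorem vl_some (c : k) (x : Fin (n + 1) → L) :
    vl (pt (some c)).1 (pt (some c)).2 x = (pol x).eval (algebraMap k L c) := by
  change vl 1 c x = _
  rw [vl_fin one_ne_zero, map_one, one_pow, one_mul, div_one]

theorem vl_none (x : Fin (n + 1) → L) :
    vl (pt (none : Option k)).1 (pt (none : Option k)).2 x = x (Fin.last n) := by
  change vl (0 : k) 1 x = _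
  rw [vl_inf rfl, map_one, one_pow, one_mul]

end defs

section red

variable {k L : Type} [Field k] [CharZero k] [IsAlgClosed k] [Field L] [Algebra k L] [IsFF k L]
  {n : ℕ}

/-- the reduction -/
structure IsRed (P : Place k L) (x : Fin (n + 1) → L) (g : L) (y : Fin (n + 1) → k) : Prop where
  g0 : g ≠ 0
  go : P.ord g = pord P x
  y0 : ∃ j, y j ≠ 0
  eq : ∀ j, Ge P 1 (x j / g - algebraMap k L (y j))

theorem const_of_small {P : Place k L} {c : k} (h : Ge P 1 (algebraMap k L c)) : c = 0 := by
  by_contra hc
  have h1 := h.resolve_left ((_root_.map_ne_zero _).2 hc)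
  rw [P.ord_const hc] at h1
  omega

theorem exists_red (P : Place k L) {x : Fin (n + 1) → L} (hx : ∃ j, x j ≠ 0) :
    ∃ (g : L) (y : Fin (n + 1) → k), IsRed P x g y := by
  obtain ⟨j0, hj0, hjo⟩ := exists_pord P hx
  have h1 : ∀ j, ∃ c : k, Ge P 1 (x j / x j0 - algebraMap k L c) := by
    intro j
    apply Pool.Agent.W603.LV.exists_const
    rcases ge_pord P x j with h | h
    · left
      rw [h, zero_div]
    · by_cases h0 : x j = 0
      · left
        rw [h0, zero_div]
      · right
        rw [P.ord_div h0 hj0]
        omega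
  choose y hy using h1
  refine ⟨x j0, y, hj0, hjo, ⟨j0, fun h => ?_⟩, hy⟩
  have h2 := hy j0
  rw [div_self hj0, h, map_zero, sub_zero] at h2
  have h3 := h2.resolve_left one_ne_zero
  rw [P.ord_one] at h3
  omega

theorem IsRed.lin {P : Place k L} {x : Fin (n + 1) → L} {g : L} {y : Fin (n + 1) → k}
    (h : IsRed P x g y) (a : Fin (n + 1) → k) :
    Ge P 1 ((∑ j, algebraMap k L (a j) * x j) / g - algebraMap k L (∑ j, a j * y j)) := by
  rw [Finset.sum_div, map_sum, ← Finset.sum_sub_distrib]
  have hs : ∀ s : Finset (Fin (n + 1)), Ge P 1 (∑ j ∈ s, (algebraMap k L (a j) * x j / g -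
      algebraMap k L (a j * y j))) := by
    intro s
    induction s using Finset.induction_on with
    | empty => rw [Finset.sum_empty]; exact Ge.zero
    | insert j s hj ih =>
      rw [Finset.sum_insert hj]
      refine Ge.add ?_ ih
      have h1 := (Ge.const (P := P) (a j)).mul (h.eq j)
      rw [zero_add] at h1
      have h2 : algebraMap k L (a j) * x j / g - algebraMap k L (a j * y j) =
          algebraMap k L (a j) * (x j / g - algebraMap k L (y j)) := by
        rw [map_mul]
        ring
      rw [h2]
      exact h1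
  exact hs Finset.univ

theorem IsRed.small {P : Place k L} {x : Fin (n + 1) → L} {g : L} {y : Fin (n + 1) → k}
    (h : IsRed P x g y) (a : Fin (n + 1) → k) :
    ((∑ j, algebraMap k L (a j) * x j) = 0 ∨
      pord P x < P.ord (∑ j, algebraMap k L (a j) * x j)) ↔ ∑ j, a j * y j = 0 := by
  have h1 := h.lin a
  set v := ∑ j, algebraMap k L (a j) * x j with hv
  set c := ∑ j, a j * y j with hc
  constructor
  · intro h2
    apply const_of_small (P := P)
    have h3 : Ge P 1 (v / g) := by
      rcases h2 with h2 | h2
      · left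
        rw [h2, zero_div]
      · by_cases hv0 : v = 0
        · left
          rw [hv0, zero_div]
        · right
          rw [P.ord_div hv0 h.g0, h.go]
          omega
    have h4 := h3.sub h1
    rwa [sub_sub_cancel] at h4
  · intro h2
    rw [h2, map_zero, sub_zero] at h1
    by_cases hv0 : v = 0
    · exact Or.inl hv0
    · right
      have h3 := h1.resolve_left (div_ne_zero hv0 h.g0)
      rw [P.ord_div hv0 h.g0, h.go] at h3
      omega

theorem eval_pol {R : Type} [CommRing R] (x : Fin (n + 1) → R) (c : R) :
    (pol x).eval c = ∑ j : Fin (n + 1), c ^ (j : ℕ) * x j := by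
  unfold pol
  rw [eval_finsetSum]
  refine Finset.sum_congr rfl fun j _ => ?_
  rw [eval_mul, eval_C, eval_pow, eval_X, mul_comm]

theorem eval_der_pol {R : Type} [CommRing R] (x : Fin (n + 1) → R) (c : R) :
    (derivative (pol x)).eval c = ∑ j : Fin (n + 1), ((j : ℕ) * c ^ ((j : ℕ) - 1)) * x j := by
  unfold pol
  rw [derivative_sum, eval_finsetSum]
  refine Finset.sum_congr rfl fun j _ => ?_
  rw [derivative_C_mul_X_pow]
  simp only [eval_mul, eval_C, eval_pow, eval_X]
  ring

theorem IsRed.some_iff {P : Place k L} {x : Fin (n + 1) → L} {g : L} {y : Fin (n + 1) → k}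
    (h : IsRed P x g y) (c : k) : some c ∈ zst P x ↔ (pol y).eval c = 0 := by
  have h1 := h.small fun j => c ^ (j : ℕ)
  rw [eval_pol, ← h1]
  unfold zst
  rw [Set.mem_ofPred_eq, vl_some, eval_pol]
  simp only [map_pow]

theorem IsRed.none_iff {P : Place k L} {x : Fin (n + 1) → L} {g : L} {y : Fin (n + 1) → k}
    (h : IsRed P x g y) : none ∈ zst P x ↔ y (Fin.last n) = 0 := by
  classical
  have h1 := h.small fun j => if j = Fin.last n then 1 else 0
  unfold zst
  rw [Set.mem_ofPred_eq, vl_none]
  simpa using h1

theorem IsRed.pol_ne {P : Place k L} {x : Fin (n + 1) → L} {g : L} {y : Fin (n + 1) → k}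
    (h : IsRed P x g y) : pol y ≠ 0 := by
  obtain ⟨j, hj⟩ := h.y0
  intro h0
  apply hj
  rw [← coeff_pol y j, h0, coeff_zero]

open Classical in
theorem IsRed.zst_eq {P : Place k L} {x : Fin (n + 1) → L} {g : L} {y : Fin (n + 1) → k}
    (h : IsRed P x g y) : zst P x = ((((pol y).roots.toFinset).image some ∪
      if y (Fin.last n) = 0 then {none} else ∅ : Finset (Option k)) : Set (Option k)) := by
  ext z
  rw [Finset.mem_coe, Finset.mem_union, Finset.mem_image]
  cases z with
  | none =>
    rw [h.none_iff]
    constructor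
    · intro h1
      right
      rw [if_pos h1, Finset.mem_singleton]
    · rintro (⟨c, -, h1⟩ | h1)
      · exact absurd h1 (by simp)
      · split_ifs at h1 with h2
        · exact h2
        · exact absurd h1 (Finset.notMem_empty _)
  | some c =>
    rw [h.some_iff]
    constructor
    · intro h1
      left
      refine ⟨c, ?_, rfl⟩
      rw [Multiset.mem_toFinset, mem_roots h.pol_ne]
      exact h1
    · rintro (⟨c', h1, h2⟩ | h1)
      · rw [Option.some_inj] at h2
        subst h2
        rw [Multiset.mem_toFinset, mem_roots h.pol_ne] at h1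
        exact h1
      · split_ifs at h1 with h2
        · rw [Finset.mem_singleton] at h1
          exact absurd h1 (by simp)
        · exact absurd h1 (Finset.notMem_empty _)

open Classical in
theorem IsRed.ncard {P : Place k L} {x : Fin (n + 1) → L} {g : L} {y : Fin (n + 1) → k}
    (h : IsRed P x g y) : (zst P x).ncard = (pol y).roots.toFinset.card +
      if y (Fin.last n) = 0 then 1 else 0 := by
  rw [h.zst_eq, Set.ncard_coe_finset, Finset.card_union_of_disjoint,
    Finset.card_image_of_injective _ (Option.some_injective k)]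
  · split_ifs <;> simp
  · rw [Finset.disjoint_left]
    intro z hz hz2
    rw [Finset.mem_image] at hz
    obtain ⟨c, -, rfl⟩ := hz
    split_ifs at hz2
    · rw [Finset.mem_singleton] at hz2
      exact absurd hz2 (by simp)
    · exact absurd hz2 (Finset.notMem_empty _)

theorem zst_finite (P : Place k L) {x : Fin (n + 1) → L} (hx : ∃ j, x j ≠ 0) :
    (zst P x).Finite := by
  classical
  obtain ⟨g, y, h⟩ := exists_red P hx
  rw [h.zst_eq]
  exact Finset.finite_toSet _

theorem pol_last {R : Type} [CommRing R] {y : Fin (n + 1) → R} (hy : y (Fin.last n) = 0)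
    (h0 : pol y ≠ 0) : (pol y).natDegree + 1 ≤ n := by
  have h1 := natDegree_pol_le y
  by_contra hcon
  have h2 : (pol y).natDegree = n := by omega
  have h3 := coeff_pol y (Fin.last n)
  rw [Fin.val_last, hy] at h3
  have h4 : (pol y).coeff (pol y).natDegree = 0 := (congrArg (pol y).coeff h2).trans h3
  rw [coeff_natDegree, leadingCoeff_eq_zero] at h4
  exact h0 h4

theorem zst_le (P : Place k L) {x : Fin (n + 1) → L} (hx : ∃ j, x j ≠ 0) :
    (zst P x).ncard ≤ n := by
  classical
  obtain ⟨g, y, h⟩ := exists_red P hx
  rw [h.ncard]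
  have h1 : (pol y).roots.toFinset.card ≤ (pol y).natDegree :=
    (Multiset.toFinset_card_le _).trans (card_roots' _)
  split_ifs with h2
  · have := pol_last h2 h.pol_ne
    omega
  · have := natDegree_pol_le y
    omega

/-- Almost all reductions have `n` distinct zeros. -/
theorem zst_almost {x : Fin (n + 1) → L} (hsq : Squarefree (pol x))
    (hdeg : n ≤ (pol x).natDegree + 1) : {P : Place k L | (zst P x).ncard ≠ n}.Finite := by
  classical
  have hchL : CharZero L := charZero_of_injective_algebraMap (algebraMap k L).injective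
  have hx : ∃ j, x j ≠ 0 := by
    by_contra hcon
    push Not at hcon
    apply hsq.ne_zero
    unfold pol
    exact Finset.sum_eq_zero fun j _ => by rw [hcon j, C_0, zero_mul]
  obtain ⟨a, b, hab⟩ := (PerfectField.separable_iff_squarefree.2 hsq :
    IsCoprime (pol x) (derivative (pol x)))
  obtain ⟨T1, hT1⟩ := exists_supp (k := k) Finset.univ x
  obtain ⟨T2, hT2⟩ := exists_supp (k := k) (Finset.range (a.natDegree + 1)) a.coeff
  obtain ⟨T3, hT3⟩ := exists_supp (k := k) (Finset.range (b.natDegree + 1)) b.coeff
  refine (T1 ∪ T2 ∪ T3).finite_toSet.subset fun P hP => ?_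
  by_contra hcon
  rw [Finset.mem_coe, Finset.mem_union, Finset.mem_union, not_or, not_or] at hcon
  obtain ⟨⟨hc1, hc2⟩, hc3⟩ := hcon
  apply hP
  have hreg : ∀ (f : L[X]), (∀ i ∈ Finset.range (f.natDegree + 1), P.ord (f.coeff i) = 0) →
      ∀ c : k, Ge P 0 (f.eval (algebraMap k L c)) := by
    intro f hf c
    rw [eval_eq_sum_range]
    have hs : ∀ s : Finset ℕ, s ⊆ Finset.range (f.natDegree + 1) →
        Ge P 0 (∑ i ∈ s, f.coeff i * algebraMap k L c ^ i) := by
      intro s
      induction s using Finset.induction_on with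
      | empty => intro _; rw [Finset.sum_empty]; exact Ge.zero
      | insert i s hi ih =>
        intro h
        rw [Finset.sum_insert hi]
        refine Ge.add ?_ (ih fun j hj => h (Finset.mem_insert_of_mem hj))
        have h1 : Ge P 0 (f.coeff i) := Or.inr (hf i (h (Finset.mem_insert_self _ _))).ge
        have h2 := h1.mul (Ge.const (P := P) (c ^ i))
        rwa [map_pow, add_zero] at h2
    exact hs _ le_rfl
  have ha := hreg a fun i hi => by
    by_contra h
    exact hc2 (hT2 i hi P h)
  have hb := hreg b fun i hi => by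
    by_contra h
    exact hc3 (hT3 i hi P h)
  have hxo : ∀ j, P.ord (x j) = 0 := fun j => by
    by_contra h
    exact hc1 (hT1 j (Finset.mem_univ _) P h)
  have hp0 : pord P x = 0 := by
    obtain ⟨j, _, hj⟩ := exists_pord P hx
    rw [← hj, hxo]
  obtain ⟨g, y, h⟩ := exists_red P hx
  have hgo : P.ord g = 0 := by rw [h.go, hp0]
  have hxy : ∀ j, y j = 0 ↔ x j = 0 := by
    intro j
    constructor
    · intro hj
      by_contra hxj
      have h1 := h.eq j
      rw [hj, map_zero, sub_zero] at h1
      have h2 := h1.resolve_left (div_ne_zero hxj h.g0)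
      rw [P.ord_div hxj h.g0, hxo, hgo] at h2
      omega
    · intro hj
      have h1 := h.eq j
      rw [hj, zero_div, zero_sub] at h1
      apply const_of_small (P := P)
      have := h1.neg
      rwa [neg_neg] at this
  have hdeg2 : (pol y).natDegree = (pol x).natDegree := by
    have h1 : ∀ i, (pol y).coeff i = 0 ↔ (pol x).coeff i = 0 := by
      intro i
      by_cases hi : i < n + 1
      · rw [coeff_pol_lt _ hi, coeff_pol_lt _ hi]
        exact hxy _
      · rw [coeff_pol_ge _ (by omega), coeff_pol_ge _ (by omega)]
        simp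
    have h2 : (pol y).support = (pol x).support := by
      ext i
      rw [mem_support_iff, mem_support_iff, Ne, h1]
    rw [natDegree_eq_support_max' h.pol_ne, natDegree_eq_support_max' hsq.ne_zero]
    simp only [h2]
  have hnd : (pol y).roots.Nodup := by
    rw [Multiset.nodup_iff_count_le_one]
    intro c
    rw [count_roots]
    by_contra hcon
    push Not at hcon
    rw [one_lt_rootMultiplicity_iff_isRoot h.pol_ne] at hcon
    obtain ⟨h1, h2⟩ := hcon
    rw [IsRoot, eval_pol] at h1
    rw [IsRoot, eval_der_pol] at h2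
    have e1 := h.lin fun j => c ^ (j : ℕ)
    have e2 := h.lin fun j => ((j : ℕ) : k) * c ^ ((j : ℕ) - 1)
    rw [h1, map_zero, sub_zero] at e1
    rw [h2, map_zero, sub_zero] at e2
    have e1' : (∑ j : Fin (n + 1), algebraMap k L (c ^ (j : ℕ)) * x j) =
        (pol x).eval (algebraMap k L c) := by
      rw [eval_pol]
      simp only [map_pow]
    have e2' : (∑ j : Fin (n + 1), algebraMap k L (((j : ℕ) : k) * c ^ ((j : ℕ) - 1)) * x j) =
        (derivative (pol x)).eval (algebraMap k L c) := by
      rw [eval_der_pol]
      simp only [map_mul, map_pow, map_natCast]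
    rw [e1'] at e1
    rw [e2'] at e2
    have h3 := congrArg (fun p => p.eval (algebraMap k L c)) hab
    simp only [eval_add, eval_mul, eval_one] at h3
    have h4 := (ha c).mul e1
    have h5 := (hb c).mul e2
    have h6 := h4.add h5
    have h7 : a.eval (algebraMap k L c) * ((pol x).eval (algebraMap k L c) / g) +
        b.eval (algebraMap k L c) * ((derivative (pol x)).eval (algebraMap k L c) / g) = 1 / g := by
      rw [← h3]
      ring
    rw [h7] at h6
    have h8 := h6.resolve_left (div_ne_zero one_ne_zero h.g0)
    rw [P.ord_div one_ne_zero h.g0, P.ord_one, hgo] at h8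
    omega
  rw [h.ncard, Multiset.toFinset_card_of_nodup hnd, ← (IsAlgClosed.splits (pol y)).natDegree_eq_card_roots,
    hdeg2]
  split_ifs with h2
  · have h3 := pol_last ((hxy _).1 h2) hsq.ne_zero
    omega
  · have h3 := natDegree_pol_le x
    have h4 : (pol x).natDegree = n := by
      refine le_antisymm h3 (le_natDegree_of_ne_zero ?_)
      have h5 := coeff_pol x (Fin.last n)
      rw [Fin.val_last] at h5
      rw [h5]
      exact fun h6 => h2 ((hxy _).2 h6)
    omega

end red

end Pool.Agent.H910.Ff
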